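import Pool.Agent.Helper91.Kissing.Iter

set_option autoImplicit false

open scoped RealInnerProductSpace
open Filter

namespace Pool.Agent.Helper91.Kissing

/-- `c_+ = limsup (log_2 τ(d)) / d`. -/
noncomputable def cPlus : ℝ := limsup (fun d : ℕ => Real.logb 2 (tau d) / d) atTop

lemma one_le_tau {d : ℕ} (hd : 0 < d) : 1 ≤ tau d := by
  classical
  let x : EuclideanSpace ℝ (Fin d) := EuclideanSpace.single ⟨0, hd⟩ 1
  have hx : ‖x‖ = 1 := by simp [x]
  have hC : IsKissing ({x} : Finset (EuclideanSpace ℝ (Fin d))) := by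
    constructor
    · intro y hy
      rw [Finset.mem_singleton] at hy
      rw [hy, hx]
    · intro y hy z hz hyz
      rw [Finset.mem_singleton] at hy hz
      exact absurd (hy.trans hz.symm) hyz
  simpa using hC.card_le_tau

lemma rate_nonneg (d : ℕ) : 0 ≤ Real.logb 2 (tau d) / d := by
  rcases Nat.eq_zero_or_pos d with rfl | hd
  · simp
  · apply div_nonneg _ (by positivity)
    apply Real.logb_nonneg (by norm_num)
    exact_mod_cast one_le_tau hd

lemma rate_le (d : ℕ) : Real.logb 2 (tau d) / d ≤ Real.logb 2 5 := by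
  rcases Nat.eq_zero_or_pos d with rfl | hd
  · simp
    apply Real.logb_nonneg (by norm_num) (by norm_num)
  · rw [div_le_iff₀ (by positivity)]
    have h1 : (tau d : ℝ) ≤ (5 : ℝ) ^ d := by exact_mod_cast tau_le_five_pow d
    have h2 : (0 : ℝ) < tau d := by exact_mod_cast one_le_tau hd
    calc Real.logb 2 (tau d) ≤ Real.logb 2 ((5 : ℝ) ^ d) :=
          Real.logb_le_logb_of_le (by norm_num) h2 h1
      _ = Real.logb 2 5 * d := by rw [Real.logb_pow]; ring

lemma isBounded_rate : IsBoundedUnder (· ≤ ·) atTop (fun d : ℕ => Real.logb 2 (tau d) / d) :=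
  isBoundedUnder_of ⟨_, rate_le⟩

lemma isCobounded_rate : IsCoboundedUnder (· ≤ ·) atTop (fun d : ℕ => Real.logb 2 (tau d) / d) :=
  IsCoboundedUnder.of_frequently_ge (Eventually.frequently (Eventually.of_forall rate_nonneg))

lemma cPlus_nonneg : 0 ≤ cPlus := by
  apply le_limsup_of_frequently_le
  · exact Eventually.frequently (Eventually.of_forall rate_nonneg)
  · exact isBounded_rate

/-- `τ(M) ≤ K 2^{(c_+ + δ) M}` for all `M`. -/
lemma tau_le_exp {δ : ℝ} (hδ : 0 < δ) :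
    ∃ K : ℝ, 1 ≤ K ∧ ∀ M : ℕ, (tau M : ℝ) ≤ K * 2 ^ ((cPlus + δ) * M) := by
  have h1 : ∀ᶠ M : ℕ in atTop, Real.logb 2 (tau M) / M < cPlus + δ :=
    eventually_lt_of_limsup_lt (by show cPlus < cPlus + δ; linarith) isBounded_rate
  obtain ⟨M0, hM0⟩ := eventually_atTop.1 h1
  refine ⟨max 1 (tau M0 : ℝ), le_max_left _ _, ?_⟩
  intro M
  have hc := cPlus_nonneg
  have hexp : (1 : ℝ) ≤ 2 ^ ((cPlus + δ) * M) := by
    apply Real.one_le_rpow (by norm_num)
    positivity
  rcases le_or_gt M M0 with h | h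
  · have h2 : (tau M : ℝ) ≤ tau M0 := by exact_mod_cast tau_mono h
    calc (tau M : ℝ) ≤ max 1 (tau M0 : ℝ) * 1 := by rw [mul_one]; exact h2.trans (le_max_right _ _)
      _ ≤ max 1 (tau M0 : ℝ) * 2 ^ ((cPlus + δ) * M) :=
          mul_le_mul_of_nonneg_left hexp (by positivity)
  · have hMpos : 0 < M := by omega
    have h2 := hM0 M h.le
    rw [div_lt_iff₀ (by positivity)] at h2
    have h3 : (0 : ℝ) < tau M := by exact_mod_cast one_le_tau hMpos
    have h4 : (tau M : ℝ) ≤ 2 ^ ((cPlus + δ) * M) := by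
      rw [← Real.logb_le_iff_le_rpow (by norm_num) h3]
      exact h2.le
    calc (tau M : ℝ) ≤ 1 * 2 ^ ((cPlus + δ) * M) := by rw [one_mul]; exact h4
      _ ≤ max 1 (tau M0 : ℝ) * 2 ^ ((cPlus + δ) * M) :=
          mul_le_mul_of_nonneg_right (le_max_left _ _) (by positivity)

/-- Asymptotic bound. -/
theorem exponent_bound (κ ε : ℝ) (hκ : 0 ≤ κ) (hε : 0 < ε) :
    ∃ d0 : ℕ, ∀ d : ℕ, d0 ≤ d → ∀ C : Finset (EuclideanSpace ℝ (Fin d)), IsKissing C →
      ∀ G : Subgroup (EuclideanSpace ℝ (Fin d) ≃ₗᵢ[ℝ] EuclideanSpace ℝ (Fin d)),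
        Preserves G C → IsIrreducibleGroup G → ∀ g ∈ G, g ≠ 1 → (movedDim g : ℝ) ≤ κ * d →
          (C.card : ℝ) ≤ 2 ^ ((4 * κ * cPlus + ε) * d) := by
  have hc := cPlus_nonneg
  set c := cPlus with hcdef
  set δ : ℝ := ε / (16 * (κ + 1)) with hδdef
  have hδ : 0 < δ := by positivity
  set η : ℝ := min 1 (ε / (8 * (κ + 1) * (c + 1))) with hηdef
  have hη : 0 < η := lt_min one_pos (by positivity)
  have hη1 : η ≤ 1 := min_le_left _ _
  have hη2 : η ≤ ε / (8 * (κ + 1) * (c + 1)) := min_le_right _ _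
  have hkey : (4 + η) * κ * (c + δ) ≤ 4 * κ * c + ε / 2 := by
    have e1 : κ * δ ≤ ε / 16 := by
      rw [hδdef, mul_div_assoc', div_le_div_iff₀ (by positivity) (by norm_num)]
      nlinarith
    have e2 : η * κ * c ≤ ε / 8 := by
      have : η * (κ * c) ≤ ε / (8 * (κ + 1) * (c + 1)) * (κ * c) :=
        mul_le_mul_of_nonneg_right hη2 (by positivity)
      have h3 : ε / (8 * (κ + 1) * (c + 1)) * (κ * c) ≤ ε / 8 := by
        rw [div_mul_eq_mul_div, div_le_div_iff₀ (by positivity) (by norm_num)]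
        have : κ * c ≤ (κ + 1) * (c + 1) := by nlinarith
        nlinarith
      linarith
    have e3 : η * κ * δ ≤ κ * δ := by
      have : 0 ≤ κ * δ := by positivity
      nlinarith
    nlinarith
  set y0 : ℝ := 1 / (4 + η) with hy0def
  have hy0 : 0 < y0 := by positivity
  have hy01 : y0 ≤ 1 := by
    rw [hy0def, div_le_one (by positivity)]; linarith
  have hy04 : 0 < 1 - 4 * y0 := by
    rw [hy0def]
    have : 4 * (1 / (4 + η)) < 1 := by
      rw [mul_one_div, div_lt_one (by positivity)]; linarith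
    linarith
  obtain ⟨β, hβ⟩ : ∃ β : ℕ, (1 - y0) ^ β < 1 - 4 * y0 :=
    exists_pow_lt_of_lt_one hy04 (by linarith)
  obtain ⟨K, hK1, hK⟩ := tau_le_exp hδ
  -- polynomial versus exponential
  have hlit := isLittleO_pow_const_const_pow_of_one_lt (R := ℝ) β
    (r := (2 : ℝ) ^ (ε / 2)) (Real.one_lt_rpow (by norm_num) (by positivity))
  have hev := hlit.bound (c := 1 / K) (by positivity)
  obtain ⟨d0, hd0⟩ := eventually_atTop.1 hev
  refine ⟨d0, ?_⟩
  intro d hd C hC G hG hirr g hg hg1 hmov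
  set k := movedDim g with hk
  set M : ℕ := ⌊(4 + η) * k⌋₊ with hMdef
  have hMle : (M : ℝ) ≤ (4 + η) * k := Nat.floor_le (by positivity)
  have hMlt : (4 + η) * k < M + 1 := Nat.lt_floor_add_one _
  have hcond : (k : ℝ) ≤ y0 * (M + 1) := by
    rw [hy0def, one_div, inv_mul_eq_div, le_div_iff₀ (by positivity)]
    linarith
  have hmain := card_le_general hC hG hirr hg hg1 hy0 hy01 hβ.le hcond
  rw [finrank_euclideanSpace_fin] at hmain
  have hmain' : (C.card : ℝ) ≤ (d : ℝ) ^ β * tau M := by exact_mod_cast hmain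
  have hpoly : K * (d : ℝ) ^ β ≤ 2 ^ (ε / 2 * d) := by
    have h1 := hd0 d hd
    rw [Real.norm_of_nonneg (by positivity), Real.norm_of_nonneg (by positivity)] at h1
    rw [Real.rpow_mul (by norm_num), Real.rpow_natCast]
    have hKpos : 0 < K := by linarith
    calc K * (d : ℝ) ^ β ≤ K * (1 / K * ((2 : ℝ) ^ (ε / 2)) ^ d) :=
          mul_le_mul_of_nonneg_left h1 hKpos.le
      _ = ((2 : ℝ) ^ (ε / 2)) ^ d := by field_simp
  have hexp : (c + δ) * M ≤ (4 * κ * c + ε / 2) * d := by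
    have h1 : (M : ℝ) ≤ (4 + η) * (κ * d) :=
      hMle.trans (mul_le_mul_of_nonneg_left hmov (by positivity))
    calc (c + δ) * M ≤ (c + δ) * ((4 + η) * (κ * d)) :=
          mul_le_mul_of_nonneg_left h1 (by positivity)
      _ = ((4 + η) * κ * (c + δ)) * d := by ring
      _ ≤ (4 * κ * c + ε / 2) * d := mul_le_mul_of_nonneg_right hkey (by positivity)
  calc (C.card : ℝ) ≤ (d : ℝ) ^ β * tau M := hmain'
    _ ≤ (d : ℝ) ^ β * (K * 2 ^ ((c + δ) * M)) :=
        mul_le_mul_of_nonneg_left (hK M) (by positivity)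
    _ = (K * (d : ℝ) ^ β) * 2 ^ ((c + δ) * M) := by ring
    _ ≤ 2 ^ (ε / 2 * d) * 2 ^ ((4 * κ * c + ε / 2) * d) := by
        apply mul_le_mul hpoly _ (by positivity) (by positivity)
        exact Real.rpow_le_rpow_of_exponent_le (by norm_num) hexp
    _ = 2 ^ ((4 * κ * c + ε) * d) := by
        rw [← Real.rpow_add (by norm_num)]
        congr 1; ring

end Pool.Agent.Helper91.Kissing
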