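import Pool.Agent.Helper91.Kissing.Basic

set_option autoImplicit false

open scoped RealInnerProductSpace

namespace Pool.Agent.Helper91.Kissing

variable {V : Type*} [NormedAddCommGroup V] [InnerProductSpace ℝ V]

/-- The subspace of vectors fixed by `g`. -/
def fixedSpace (g : V ≃ₗᵢ[ℝ] V) : Submodule ℝ V where
  carrier := {v | g v = v}
  add_mem' := by
    intro a b ha hb
    simp only [Set.mem_ofPred_eq] at *
    rw [map_add, ha, hb]
  zero_mem' := by simp
  smul_mem' := by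
    intro c x hx
    simp only [Set.mem_ofPred_eq] at *
    rw [map_smul, hx]

@[simp] lemma mem_fixedSpace {g : V ≃ₗᵢ[ℝ] V} {v : V} : v ∈ fixedSpace g ↔ g v = v := Iff.rfl

/-- A group of linear isometries is irreducible if it has no nontrivial invariant subspace. -/
def IsIrreducibleGroup (G : Subgroup (V ≃ₗᵢ[ℝ] V)) : Prop :=
  ∀ W : Submodule ℝ V, (∀ g ∈ G, ∀ w ∈ W, g w ∈ W) → W = ⊥ ∨ W = ⊤

section Averaging

variable [FiniteDimensional ℝ V] (G : Subgroup (V ≃ₗᵢ[ℝ] V)) [Fintype G] (K : Submodule ℝ V)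

/-- The average of the conjugates of the orthogonal projection onto `K`. -/
noncomputable def avgOp : V →ₗ[ℝ] V :=
  ∑ h : G, (h.1.toLinearEquiv.toLinearMap) ∘ₗ (K.starProjection : V →ₗ[ℝ] V) ∘ₗ
    (h⁻¹.1.toLinearEquiv.toLinearMap)

lemma avgOp_apply (v : V) : avgOp G K v = ∑ h : G, h.1 (K.starProjection (h⁻¹.1 v)) := by
  simp [avgOp, LinearMap.sum_apply]

lemma inner_symm_apply (g : V ≃ₗᵢ[ℝ] V) (v w : V) : ⟪g v, w⟫ = ⟪v, g⁻¹ w⟫ := by
  have : w = g (g⁻¹ w) := by
    have h : (g * g⁻¹) w = w := by simp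
    exact h.symm
  conv_lhs => rw [this]
  exact g.inner_map_map v (g⁻¹ w)

lemma avgOp_symmetric : (avgOp G K).IsSymmetric := by
  intro v w
  rw [avgOp_apply, avgOp_apply, sum_inner, inner_sum]
  refine Finset.sum_congr rfl fun h _ => ?_
  rw [inner_symm_apply, Submodule.inner_starProjection_left_eq_right]
  rw [show ((h⁻¹ : G) : V ≃ₗᵢ[ℝ] V) = (h : V ≃ₗᵢ[ℝ] V)⁻¹ from rfl]
  have := inner_symm_apply ((h : V ≃ₗᵢ[ℝ] V)⁻¹) v (K.starProjection ((h : V ≃ₗᵢ[ℝ] V)⁻¹ w))
  rw [inv_inv] at this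
  exact this

lemma avgOp_comm (g : G) (v : V) : avgOp G K (g.1 v) = g.1 (avgOp G K v) := by
  rw [avgOp_apply, avgOp_apply, map_sum]
  rw [← Equiv.sum_comp (Equiv.mulLeft g)]
  refine Finset.sum_congr rfl fun h _ => ?_
  simp [mul_inv_rev]

lemma inner_avgOp_self (v : V) : ⟪avgOp G K v, v⟫ = ∑ h : G, ‖K.starProjection (h⁻¹.1 v)‖ ^ 2 := by
  rw [avgOp_apply, sum_inner]
  refine Finset.sum_congr rfl fun h _ => ?_
  rw [inner_symm_apply]
  have h1 : ((h⁻¹ : G) : V ≃ₗᵢ[ℝ] V) = (h : V ≃ₗᵢ[ℝ] V)⁻¹ := rfl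
  rw [h1]
  set w := (h : V ≃ₗᵢ[ℝ] V)⁻¹ v
  rw [← real_inner_self_eq_norm_sq]
  rw [Submodule.inner_starProjection_left_eq_right, Submodule.inner_starProjection_left_eq_right]
  congr 1
  exact (Submodule.starProjection_eq_self_iff.2 (K.starProjection_apply_mem w)).symm

/-- sum over an orthonormal basis of the squared lengths of the projections -/
lemma sum_norm_starProjection_sq {ι : Type*} [Fintype ι] (b : OrthonormalBasis ι ℝ V) :
    ∑ i, ‖K.starProjection (b i)‖ ^ 2 = Module.finrank ℝ K := by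
  let c := stdOrthonormalBasis ℝ K
  let T : V →ₗ[ℝ] K := (K.orthogonalProjectionOnto : V →ₗ[ℝ] K)
  have h1 : ∀ i, ‖K.starProjection (b i)‖ ^ 2 = ‖T (b i)‖ ^ 2 := fun i => rfl
  simp_rw [h1]
  have h2 : ∀ i, ‖T (b i)‖ ^ 2 = ∑ j, ⟪b i, (c j : V)⟫ ^ 2 := by
    intro i
    rw [← c.sum_sq_norm_inner_right (T (b i))]
    refine Finset.sum_congr rfl fun j _ => ?_
    rw [Real.norm_eq_abs, sq_abs]
    congr 1
    have := Submodule.inner_orthogonalProjectionOnto_eq_of_mem_left (𝕜 := ℝ) (c j) (b i)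
    rw [real_inner_comm (c j : V) (b i)]
    exact this
  simp_rw [h2]
  rw [Finset.sum_comm]
  have h3 : ∀ j, ∑ i, ⟪b i, (c j : V)⟫ ^ 2 = 1 := by
    intro j
    have := b.sum_sq_norm_inner_right (c j : V)
    have h4 : ‖(c j : V)‖ = 1 := c.orthonormal.1 j
    rw [h4] at this
    simpa [Real.norm_eq_abs, sq_abs] using this
  simp [h3]

variable {G}

lemma avg_eq (hirr : IsIrreducibleGroup G) (hV : 0 < Module.finrank ℝ V) (v : V) :
    ∑ h : G, ‖K.starProjection (h⁻¹.1 v)‖ ^ 2 =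
      (Fintype.card G * Module.finrank ℝ K / Module.finrank ℝ V : ℝ) * ‖v‖ ^ 2 := by
  have : Nontrivial V := Module.nontrivial_of_finrank_pos hV
  set A := avgOp G K with hA
  have hsym : A.IsSymmetric := avgOp_symmetric G K
  obtain ⟨μ, hμ⟩ : ∃ μ : ℝ, Module.End.HasEigenvalue A μ :=
    ⟨_, hsym.hasEigenvalue_iSup_of_finiteDimensional⟩
  have htop : Module.End.eigenspace A μ = ⊤ := by
    have hinv : ∀ g ∈ G, ∀ w ∈ Module.End.eigenspace A μ, g w ∈ Module.End.eigenspace A μ := by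
      intro g hg w hw
      rw [Module.End.mem_eigenspace_iff] at hw ⊢
      have := avgOp_comm G K ⟨g, hg⟩ w
      simp only at this
      rw [← hA] at this
      rw [this, hw, map_smul]
    rcases hirr (Module.End.eigenspace A μ) hinv with h | h
    · exact absurd h hμ
    · exact h
  have hAv : ∀ v, A v = μ • v := by
    intro v
    have : v ∈ Module.End.eigenspace A μ := by rw [htop]; trivial
    exact Module.End.mem_eigenspace_iff.1 this
  have hQ : ∀ v, ∑ h : G, ‖K.starProjection (h⁻¹.1 v)‖ ^ 2 = μ * ‖v‖ ^ 2 := by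
    intro v
    rw [← inner_avgOp_self, ← hA, hAv, real_inner_smul_left, real_inner_self_eq_norm_sq]
  have hμ' : μ * Module.finrank ℝ V = Fintype.card G * Module.finrank ℝ K := by
    let b := stdOrthonormalBasis ℝ V
    have h1 : ∑ i, ∑ h : G, ‖K.starProjection (h⁻¹.1 (b i))‖ ^ 2 = μ * Module.finrank ℝ V := by
      simp_rw [hQ]
      simp [b.orthonormal.1, mul_comm]
    rw [← h1, Finset.sum_comm]
    have h2 : ∀ h : G, ∑ i, ‖K.starProjection (h⁻¹.1 (b i))‖ ^ 2 = Module.finrank ℝ K := by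
      intro h
      have := sum_norm_starProjection_sq K (b.map (h⁻¹.1))
      simpa using this
    simp_rw [h2]
    simp
  rw [hQ]
  congr 1
  have hVne : (Module.finrank ℝ V : ℝ) ≠ 0 := by positivity
  field_simp
  exact hμ'

end Averaging

end Pool.Agent.Helper91.Kissing
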