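import Mathlib

set_option autoImplicit false

open scoped RealInnerProductSpace

namespace Pool.Agent.Helper91.Kissing

variable {V : Type*} [NormedAddCommGroup V] [InnerProductSpace ℝ V]

/-- A kissing configuration: a finite set of unit vectors with pairwise angles at least `π/3`,
that is, with pairwise inner products at most `1/2`. -/
def IsKissing (C : Finset V) : Prop :=
  (∀ x ∈ C, ‖x‖ = 1) ∧ ∀ x ∈ C, ∀ y ∈ C, x ≠ y → ⟪x, y⟫ ≤ 1 / 2

/-- The kissing number of the unit ball in `ℝ^d`. -/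
noncomputable def tau (d : ℕ) : ℕ :=
  sSup {n : ℕ | ∃ C : Finset (EuclideanSpace ℝ (Fin d)), IsKissing C ∧ C.card = n}

lemma IsKissing.dist_ge {C : Finset V} (hC : IsKissing C) {x y : V} (hx : x ∈ C) (hy : y ∈ C)
    (hxy : x ≠ y) : 1 ≤ ‖x - y‖ := by
  have h1 := hC.1 x hx
  have h2 := hC.1 y hy
  have h3 := hC.2 x hx y hy hxy
  have h4 : ‖x - y‖ ^ 2 = ‖x‖ ^ 2 - 2 * ⟪x, y⟫ + ‖y‖ ^ 2 := norm_sub_sq_real x y
  rw [h1, h2] at h4
  nlinarith [norm_nonneg (x - y)]

lemma IsKissing.card_le_five_pow [FiniteDimensional ℝ V] {C : Finset V} (hC : IsKissing C) :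
    C.card ≤ 5 ^ Module.finrank ℝ V := by
  apply Besicovitch.card_le_of_separated C
  · intro x hx
    rw [hC.1 x hx]; norm_num
  · intro x hx y hy hxy
    exact hC.dist_ge hx hy hxy

lemma bddAbove_tau (d : ℕ) :
    BddAbove {n : ℕ | ∃ C : Finset (EuclideanSpace ℝ (Fin d)), IsKissing C ∧ C.card = n} := by
  refine ⟨5 ^ d, ?_⟩
  rintro n ⟨C, hC, rfl⟩
  simpa using hC.card_le_five_pow

lemma IsKissing.card_le_tau {d : ℕ} {C : Finset (EuclideanSpace ℝ (Fin d))} (hC : IsKissing C) :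
    C.card ≤ tau d :=
  le_csSup (bddAbove_tau d) ⟨C, hC, rfl⟩

lemma tau_le_five_pow (d : ℕ) : tau d ≤ 5 ^ d := by
  apply csSup_le'
  rintro n ⟨C, hC, rfl⟩
  simpa using hC.card_le_five_pow

lemma IsKissing.map {W : Type*} [NormedAddCommGroup W] [InnerProductSpace ℝ W] {C : Finset V}
    (hC : IsKissing C) (f : V →ₗᵢ[ℝ] W) :
    IsKissing (C.map ⟨f, f.injective⟩) := by
  constructor
  · intro x hx
    obtain ⟨y, hy, rfl⟩ := Finset.mem_map.1 hx
    simpa using hC.1 y hy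
  · intro x hx y hy hxy
    obtain ⟨x', hx', rfl⟩ := Finset.mem_map.1 hx
    obtain ⟨y', hy', rfl⟩ := Finset.mem_map.1 hy
    have : x' ≠ y' := fun h => hxy (by rw [h])
    simpa using hC.2 x' hx' y' hy' this

lemma exists_isometry [FiniteDimensional ℝ V] {M : ℕ} (h : Module.finrank ℝ V ≤ M) :
    Nonempty (V →ₗᵢ[ℝ] EuclideanSpace ℝ (Fin M)) := by
  let b := stdOrthonormalBasis ℝ V
  let e : OrthonormalBasis (Fin M) ℝ (EuclideanSpace ℝ (Fin M)) := EuclideanSpace.basisFun (Fin M) ℝ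
  let f : V →ₗ[ℝ] EuclideanSpace ℝ (Fin M) :=
    b.toBasis.constr ℝ (fun i => e (Fin.castLE h i))
  have hf : ∀ i, f (b.toBasis i) = e (Fin.castLE h i) := fun i => by
    simp only [f, Module.Basis.constr_basis]
  refine ⟨f.isometryOfOrthonormal (v := b.toBasis) ?_ ?_⟩
  · simpa using b.orthonormal
  · have : (f ∘ b.toBasis) = e ∘ (Fin.castLE h) := by
      funext i
      exact hf i
    rw [this]
    exact e.orthonormal.comp _ (Fin.castLE_injective h)

lemma IsKissing.card_le_tau' [FiniteDimensional ℝ V] {C : Finset V} (hC : IsKissing C) {M : ℕ}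
    (h : Module.finrank ℝ V ≤ M) : C.card ≤ tau M := by
  obtain ⟨f⟩ := exists_isometry h
  have := (hC.map f).card_le_tau
  simpa using this

lemma tau_mono {m n : ℕ} (h : m ≤ n) : tau m ≤ tau n := by
  apply csSup_le'
  rintro k ⟨C, hC, rfl⟩
  apply hC.card_le_tau'
  simpa using h

open Classical in
lemma IsKissing.card_filter_le_tau {C : Finset V} (hC : IsKissing C) (W : Submodule ℝ V)
    [FiniteDimensional ℝ W] {M : ℕ} (h : Module.finrank ℝ W ≤ M) :
    (C.filter (· ∈ W)).card ≤ tau M := by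
  let C' : Finset W := C.subtype (· ∈ W)
  have hC' : IsKissing C' := by
    constructor
    · intro x hx
      have : (x : V) ∈ C := by simpa [C'] using hx
      simpa using hC.1 _ this
    · intro x hx y hy hxy
      have hx' : (x : V) ∈ C := by simpa [C'] using hx
      have hy' : (y : V) ∈ C := by simpa [C'] using hy
      have : (x : V) ≠ y := fun h => hxy (Subtype.ext h)
      simpa using hC.2 _ hx' _ hy' this
  have h1 := hC'.card_le_tau' h
  have h2 : C'.card = (C.filter (· ∈ W)).card := by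
    simp [C']
  omega

/-! ### Hilbert-Schmidt norms -/

section HS

variable {W : Type*} [NormedAddCommGroup W] [InnerProductSpace ℝ W]

lemma hs_eq_adjoint [FiniteDimensional ℝ V] [FiniteDimensional ℝ W] {ι κ : Type*} [Fintype ι]
    [Fintype κ] (b : OrthonormalBasis ι ℝ V) (c : OrthonormalBasis κ ℝ W) (T : V →ₗ[ℝ] W) :
    ∑ i, ‖T (b i)‖ ^ 2 = ∑ j, ‖LinearMap.adjoint T (c j)‖ ^ 2 := by
  have h1 : ∀ i, ‖T (b i)‖ ^ 2 = ∑ j, ⟪c j, T (b i)⟫ ^ 2 := by
    intro i
    have := c.sum_sq_norm_inner_right (T (b i))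
    rw [← this]
    exact Finset.sum_congr rfl fun j _ => by rw [Real.norm_eq_abs, sq_abs]
  have h2 : ∀ j, ‖LinearMap.adjoint T (c j)‖ ^ 2 = ∑ i, ⟪b i, LinearMap.adjoint T (c j)⟫ ^ 2 := by
    intro j
    have := b.sum_sq_norm_inner_right (LinearMap.adjoint T (c j))
    rw [← this]
    exact Finset.sum_congr rfl fun j _ => by rw [Real.norm_eq_abs, sq_abs]
  simp_rw [h1, h2]
  rw [Finset.sum_comm]
  refine Finset.sum_congr rfl fun j _ => Finset.sum_congr rfl fun i _ => ?_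
  rw [LinearMap.adjoint_inner_right, real_inner_comm]

lemma adjoint_norm_le [FiniteDimensional ℝ V] [FiniteDimensional ℝ W] (T : V →ₗ[ℝ] W)
    (hT : ∀ v, ‖T v‖ ≤ ‖v‖) (w : W) : ‖LinearMap.adjoint T w‖ ≤ ‖w‖ := by
  by_contra hcon
  push Not at hcon
  have h1 : ‖LinearMap.adjoint T w‖ ^ 2 = ⟪w, T (LinearMap.adjoint T w)⟫ := by
    rw [← real_inner_self_eq_norm_sq, LinearMap.adjoint_inner_left]
  have h2 : ⟪w, T (LinearMap.adjoint T w)⟫ ≤ ‖w‖ * ‖T (LinearMap.adjoint T w)‖ :=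
    real_inner_le_norm _ _
  have h3 := hT (LinearMap.adjoint T w)
  have h4 : 0 < ‖LinearMap.adjoint T w‖ := lt_of_le_of_lt (norm_nonneg _) hcon
  nlinarith [norm_nonneg w, norm_nonneg (T (LinearMap.adjoint T w))]

/-- the Hilbert-Schmidt norm of a contraction is at most its rank -/
lemma hs_le_finrank_range [FiniteDimensional ℝ V] [FiniteDimensional ℝ W] {ι : Type*} [Fintype ι]
    (b : OrthonormalBasis ι ℝ V) (T : V →ₗ[ℝ] W) (hT : ∀ v, ‖T v‖ ≤ ‖v‖) :
    ∑ i, ‖T (b i)‖ ^ 2 ≤ Module.finrank ℝ (LinearMap.range T) := by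
  let T' : V →ₗ[ℝ] LinearMap.range T := T.rangeRestrict
  let c := stdOrthonormalBasis ℝ (LinearMap.range T)
  have h1 : ∑ i, ‖T (b i)‖ ^ 2 = ∑ i, ‖T' (b i)‖ ^ 2 := by
    refine Finset.sum_congr rfl fun i _ => ?_
    rfl
  rw [h1, hs_eq_adjoint b c T']
  have h2 : ∀ j, ‖LinearMap.adjoint T' (c j)‖ ^ 2 ≤ 1 := by
    intro j
    have h3 := adjoint_norm_le T' (fun v => hT v) (c j)
    have h4 : ‖c j‖ = 1 := c.orthonormal.1 j
    rw [h4] at h3
    nlinarith [norm_nonneg (LinearMap.adjoint T' (c j))]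
  calc ∑ j, ‖LinearMap.adjoint T' (c j)‖ ^ 2 ≤ ∑ j, (1 : ℝ) := Finset.sum_le_sum fun j _ => h2 j
    _ = Module.finrank ℝ (LinearMap.range T) := by simp

end HS

end Pool.Agent.Helper91.Kissing
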