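import Pool.Agent.Helper91.Kissing.Greedy

set_option autoImplicit false

open Finset

namespace Pool.Agent.Helper91.Kissing.Signs

variable {r : ℕ}

lemma sgn_sum_ite (t : ZMod 2 → ZMod 2 → ℤˣ) (h : ∃ a b, t a b ≠ 1) :
    ∑ u : ZMod 2 × ZMod 2, ((t u.1 u.2 : ℤˣ) : ℤ) ≤ 2 := by
  obtain ⟨a, b, hab⟩ := h
  have h1 : t a b = -1 := (Int.units_eq_one_or _).resolve_left hab
  have h2 : ∀ u : ZMod 2 × ZMod 2, ((t u.1 u.2 : ℤˣ) : ℤ) ≤ 1 := by
    intro u
    rcases Int.units_eq_one_or (t u.1 u.2) with h | h <;> rw [h] <;> norm_num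
  rw [← Finset.add_sum_erase _ _ (Finset.mem_univ (a, b))]
  have h3 : ∑ u ∈ (univ : Finset (ZMod 2 × ZMod 2)).erase (a, b), ((t u.1 u.2 : ℤˣ) : ℤ) ≤
      ∑ u ∈ (univ : Finset (ZMod 2 × ZMod 2)).erase (a, b), (1 : ℤ) :=
    Finset.sum_le_sum fun u _ => h2 u
  have h4 : ∑ u ∈ (univ : Finset (ZMod 2 × ZMod 2)).erase (a, b), (1 : ℤ) = 3 := by
    rw [Finset.sum_const, Finset.card_erase_of_mem (Finset.mem_univ _)]
    simp [ZMod.card]
  rw [h4] at h3
  simp only [h1]
  push_cast
  linarith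

lemma card_J : Fintype.card (J (r + 2)) = 2 ^ (r + 2) := by simp [J, ZMod.card]

/-- the sum of a nontrivial element of `E` -/
lemma sum_E_le {e : X (r + 2)} (he : e ∈ E) (hne : e ≠ 1) :
    ∑ j, ((e j : ℤˣ) : ℤ) ≤ 2 ^ (r + 1) := by
  obtain ⟨s, y, rfl⟩ := he
  by_cases hy : ∃ l : Fin r, y l.succ.succ ≠ 0
  · obtain ⟨l, hl⟩ := hy
    have hl1 : y l.succ.succ = 1 := (zmod2_cases _).resolve_left hl
    let q : J (r + 2) := Pi.single l.succ.succ 1
    have hflip : ∀ j : J (r + 2), (blk s * chi y : X (r + 2)) (j + q) =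
        - (blk s * chi y : X (r + 2)) j := by
      intro j
      have h0 : q 0 = 0 := by
        simp [q]
      have h1 : q 1 = 0 := by
        simp only [q]
        rw [Pi.single_eq_of_ne]
        intro h
        have := congrArg Fin.val h
        simp at this
      simp only [Pi.mul_apply, blk, Pi.add_apply, h0, h1, add_zero, chi]
      have h2 : ∑ i, y i * (j i + q i) = (∑ i, y i * j i) + 1 := by
        simp only [mul_add, Finset.sum_add_distrib]
        congr 1
        rw [Finset.sum_eq_single l.succ.succ]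
        · simp [q, hl1]
        · intro b _ hb
          simp only [q]
          rw [Pi.single_eq_of_ne hb, mul_zero]
        · simp
      rw [h2, sgn_add]
      have : sgn 1 = -1 := by decide
      rw [this]
      simp
    have hsum : ∑ j, (((blk s * chi y : X (r + 2)) j : ℤˣ) : ℤ) =
        - ∑ j, (((blk s * chi y : X (r + 2)) j : ℤˣ) : ℤ) := by
      rw [← Finset.sum_neg_distrib]
      rw [← Equiv.sum_comp (Equiv.addRight q)]
      refine Finset.sum_congr rfl fun j _ => ?_
      rw [Equiv.coe_addRight, hflip]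
      simp
    have : ∑ j, (((blk s * chi y : X (r + 2)) j : ℤˣ) : ℤ) = 0 := by omega
    rw [this]
    positivity
  · push Not at hy
    let t : ZMod 2 → ZMod 2 → ℤˣ := fun a b => s a b * sgn (y 0 * a + y 1 * b)
    have ht : ∀ j : J (r + 2), (blk s * chi y : X (r + 2)) j = t (j 0) (j 1) := by
      intro j
      simp only [Pi.mul_apply, blk, chi, t]
      congr 2
      rw [Fin.sum_univ_succ, Fin.sum_univ_succ]
      have : ∑ i : Fin r, y i.succ.succ * j i.succ.succ = 0 := by
        apply Finset.sum_eq_zero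
        intro i _
        rw [hy i, zero_mul]
      rw [this, add_zero]
      rfl
    have hex : ∃ a b, t a b ≠ 1 := by
      by_contra hcon
      push Not at hcon
      apply hne
      funext j
      rw [ht j, hcon]; rfl
    have h2 := sgn_sum_ite t hex
    let P : ZMod 2 × ZMod 2 → J (r + 2) := fun u i => if i = 0 then u.1 else if i = 1 then u.2 else 0
    have hP0 : ∀ u, P u 0 = u.1 := fun u => by simp [P]
    have hP1 : ∀ u, P u 1 = u.2 := fun u => by simp [P]
    have h3 : ∀ u : ZMod 2 × ZMod 2, ∑ j, (((blk s * chi y : X (r + 2)) (j + P u) : ℤˣ) : ℤ) =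
        ∑ j, (((blk s * chi y : X (r + 2)) j : ℤˣ) : ℤ) := by
      intro u
      rw [← Equiv.sum_comp (Equiv.addRight (P u))
        (fun j => (((blk s * chi y : X (r + 2)) j : ℤˣ) : ℤ))]
      rfl
    have h4 : 4 * ∑ j, (((blk s * chi y : X (r + 2)) j : ℤˣ) : ℤ) ≤ 2 * 2 ^ (r + 2) := by
      calc 4 * ∑ j, (((blk s * chi y : X (r + 2)) j : ℤˣ) : ℤ)
          = ∑ u : ZMod 2 × ZMod 2, ∑ j, (((blk s * chi y : X (r + 2)) (j + P u) : ℤˣ) : ℤ) := by
            simp only [h3]
            rw [Finset.sum_const]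
            simp [ZMod.card]
        _ = ∑ j, ∑ u : ZMod 2 × ZMod 2, (((blk s * chi y : X (r + 2)) (j + P u) : ℤˣ) : ℤ) :=
            Finset.sum_comm
        _ = ∑ j : J (r + 2), ∑ u : ZMod 2 × ZMod 2, ((t u.1 u.2 : ℤˣ) : ℤ) := by
            refine Finset.sum_congr rfl fun j _ => ?_
            rw [← Equiv.sum_comp (Equiv.addLeft ((j 0, j 1) : ZMod 2 × ZMod 2))
              (fun u => ((t u.1 u.2 : ℤˣ) : ℤ))]
            refine Finset.sum_congr rfl fun u _ => ?_
            rw [ht, Pi.add_apply, Pi.add_apply, hP0, hP1]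
            rfl
        _ ≤ ∑ j : J (r + 2), (2 : ℤ) := Finset.sum_le_sum fun j _ => h2
        _ = 2 * 2 ^ (r + 2) := by
            rw [Finset.sum_const, Finset.card_univ, card_J]
            simp [mul_comm]
    have h5 : (2 : ℤ) ^ (r + 2) = 2 * 2 ^ (r + 1) := by ring
    omega

lemma good_of (x : X (r + 2))
    (h : ∀ (s : ZMod 2 → ZMod 2 → ℤˣ) (y p : J (r + 2)), p ≠ 0 →
      ip x (mv (blk s * chi y) p x) ≤ 2 ^ (r + 1)) : Good x := by
  intro e he p
  by_cases hp : p = 0
  · subst hp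
    by_cases h1 : e = 1
    · left; rw [h1]; simp [mv, tr_zero]
    · right
      have := sum_E_le he h1
      have h2 : ip x (mv e 0 x) = ∑ j, ((e j : ℤˣ) : ℤ) := by
        unfold ip
        refine Finset.sum_congr rfl fun j _ => ?_
        have : x j * mv e 0 x j = e j * (x j * x j) := by
          simp only [mv, Pi.mul_apply, tr_zero]
          exact mul_left_comm _ _ _
        rw [this, units_sq, mul_one]
      rw [h2]; exact this
  · right
    obtain ⟨s, y, rfl⟩ := he
    exact h s y p hp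

lemma qbound : ∀ n : ℕ, 512 * (4 : ℝ) ^ (n + 6) * (4 / (3 * Real.sqrt 3)) ^ (2 ^ (n + 6)) ≤ 1 := by
  have h30 : (0 : ℝ) < Real.sqrt 3 := Real.sqrt_pos.2 (by norm_num)
  have hq2 : (4 / (3 * Real.sqrt 3)) ^ 2 = (16 / 27 : ℝ) := by
    rw [div_pow, mul_pow, sq (Real.sqrt 3), sqrt3_sq]; norm_num
  intro n
  induction n with
  | zero =>
    have : (4 / (3 * Real.sqrt 3)) ^ (2 ^ (0 + 6)) = (16 / 27 : ℝ) ^ 32 := by
      rw [← hq2, ← pow_mul]
      norm_num
    rw [this]
    norm_num
  | succ n ih =>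
    set a : ℝ := (4 / (3 * Real.sqrt 3)) ^ (2 ^ (n + 6)) with ha
    have ha0 : 0 < a := by positivity
    have e1 : (4 / (3 * Real.sqrt 3)) ^ (2 ^ (n + 1 + 6)) = a ^ 2 := by
      rw [ha, ← pow_mul]
      congr 1
    rw [e1]
    have e2 : (4 : ℝ) ^ (n + 1 + 6) = 4 * 4 ^ (n + 6) := by ring
    rw [e2]
    have h4 : (1 : ℝ) ≤ 4 ^ (n + 6) := one_le_pow₀ (by norm_num)
    have h5 : 512 * a ≤ 1 := by nlinarith
    have h6 : 4 * a ≤ 1 := by linarith
    calc 512 * (4 * 4 ^ (n + 6)) * a ^ 2 = (512 * 4 ^ (n + 6) * a) * (4 * a) := by ring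
      _ ≤ 1 * 1 := by
          apply mul_le_mul ih h6 (by positivity) (by norm_num)
      _ = 1 := by norm_num

open Classical in
/-- Existence of large invariant families of sign vectors. -/
theorem exists_large (hr : 6 ≤ r) : ∃ I : Finset (X (r + 2)), Closed I ∧ Free I ∧
    (27 / 16 : ℝ) ^ (2 ^ r) / 2 ≤ I.card := by
  obtain ⟨I, hc, hf, -, hmax⟩ := exists_maximal (r := r)
  refine ⟨I, hc, hf, ?_⟩
  set m := 2 ^ r with hm
  set Q : ℝ := (64 / (3 * Real.sqrt 3)) ^ m with hQ
  have h30 : (0 : ℝ) < Real.sqrt 3 := Real.sqrt_pos.2 (by norm_num)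
  have hcardX : Fintype.card (X (r + 2)) = 16 ^ m := by
    rw [Fintype.card_fun, Fintype.card_units_int, card_J]
    rw [show 2 ^ (r + 2) = 4 * m by rw [hm]; ring, pow_mul]
    norm_num
  -- bad vectors
  let Idx := (ZMod 2 → ZMod 2 → ℤˣ) × J (r + 2) × J (r + 2)
  let S : Finset Idx := univ.filter (fun t => t.2.2 ≠ 0)
  let bad : Idx → Finset (X (r + 2)) := fun t =>
    univ.filter (fun x => 2 ^ (r + 1) < ip x (mv (blk t.1 * chi t.2.1) t.2.2 x))
  have hcover : (univ : Finset (X (r + 2))) ⊆ (univ.filter Good) ∪ S.biUnion bad := by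
    intro x _
    rw [Finset.mem_union]
    by_cases hx : Good x
    · left; simpa using hx
    · right
      by_contra hcon
      apply hx
      apply good_of
      intro s y p hp
      by_contra hlt
      push Not at hlt
      apply hcon
      rw [Finset.mem_biUnion]
      refine ⟨(s, y, p), ?_, ?_⟩
      · simp only [S, Finset.mem_filter, Finset.mem_univ, true_and]; exact hp
      · simp only [bad, Finset.mem_filter, Finset.mem_univ, true_and]; exact hlt
  have hbad : ((S.biUnion bad).card : ℝ) ≤ 16 ^ m / 2 := by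
    have h1 : ((S.biUnion bad).card : ℝ) ≤ ∑ t ∈ S, ((bad t).card : ℝ) := by
      exact_mod_cast Finset.card_biUnion_le
    have h2 : ∑ t ∈ S, ((bad t).card : ℝ) ≤ ∑ t ∈ S, Q := by
      refine Finset.sum_le_sum fun t ht => ?_
      have hp : t.2.2 ≠ 0 := by simpa [S] using ht
      exact self_bound _ hp
    have h3 : (S.card : ℝ) ≤ 16 * ((4 * m) * (4 * m)) := by
      have h4 : S.card ≤ Fintype.card Idx := Finset.card_le_univ _
      have h5 : Fintype.card Idx = 16 * ((4 * m) * (4 * m)) := by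
        rw [Fintype.card_prod, Fintype.card_prod, card_J]
        have h6 : Fintype.card (ZMod 2 → ZMod 2 → ℤˣ) = 16 := by
          rw [Fintype.card_fun, Fintype.card_fun, Fintype.card_units_int, ZMod.card]
          norm_num
        rw [h6, hm]
        ring
      rw [h5] at h4
      exact_mod_cast h4
    have hQ0 : 0 < Q := by positivity
    have h7 : 16 * ((4 * (m : ℝ)) * (4 * m)) * Q ≤ 16 ^ m / 2 := by
      obtain ⟨n, rfl⟩ : ∃ n, r = n + 6 := ⟨r - 6, by omega⟩
      have hq := qbound n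
      have e1 : Q = 16 ^ m * (4 / (3 * Real.sqrt 3)) ^ m := by
        rw [hQ, ← mul_pow]
        congr 1
        ring
      have e2 : ((m : ℝ)) * m = 4 ^ (n + 6) := by
        rw [hm]; push_cast
        rw [← mul_pow]; norm_num
      rw [e1]
      have : 16 * ((4 * (m : ℝ)) * (4 * m)) * (16 ^ m * (4 / (3 * Real.sqrt 3)) ^ m) =
          16 ^ m / 2 * (512 * (m * m) * (4 / (3 * Real.sqrt 3)) ^ m) := by ring
      rw [this, e2]
      have h8 : (0 : ℝ) ≤ 16 ^ m / 2 := by positivity
      calc (16 : ℝ) ^ m / 2 * (512 * 4 ^ (n + 6) * (4 / (3 * Real.sqrt 3)) ^ m)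
          ≤ 16 ^ m / 2 * 1 := mul_le_mul_of_nonneg_left hq h8
        _ = 16 ^ m / 2 := mul_one _
    calc ((S.biUnion bad).card : ℝ) ≤ ∑ t ∈ S, ((bad t).card : ℝ) := h1
      _ ≤ ∑ t ∈ S, Q := h2
      _ = S.card * Q := by rw [Finset.sum_const, nsmul_eq_mul]
      _ ≤ 16 * ((4 * (m : ℝ)) * (4 * m)) * Q := mul_le_mul_of_nonneg_right h3 hQ0.le
      _ ≤ 16 ^ m / 2 := h7
  have hgood : (16 : ℝ) ^ m / 2 ≤ ((univ.filter (Good (r := r))).card : ℝ) := by
    have h1 : ((univ : Finset (X (r + 2))).card : ℝ) ≤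
        ((univ.filter (Good (r := r))).card : ℝ) + ((S.biUnion bad).card : ℝ) := by
      have := (Finset.card_le_card hcover).trans (Finset.card_union_le _ _)
      exact_mod_cast this
    rw [Finset.card_univ, hcardX] at h1
    push_cast at h1
    linarith
  have hcov2 : (univ.filter (Good (r := r))) ⊆
      I.biUnion (fun y => univ.filter (fun x => 2 ^ (r + 1) < ip y x)) := by
    intro x hx
    have hx' : Good x := by simpa using hx
    obtain ⟨y, hy, hlt⟩ := hmax x hx'
    rw [Finset.mem_biUnion]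
    exact ⟨y, hy, by simpa using hlt⟩
  have h9 : ((univ.filter (Good (r := r))).card : ℝ) ≤ I.card * (256 / 27 : ℝ) ^ m := by
    have h1 : ((univ.filter (Good (r := r))).card : ℝ) ≤
        ∑ y ∈ I, ((univ.filter (fun x : X (r + 2) => 2 ^ (r + 1) < ip y x)).card : ℝ) := by
      exact_mod_cast (Finset.card_le_card hcov2).trans Finset.card_biUnion_le
    refine h1.trans ?_
    calc ∑ y ∈ I, ((univ.filter (fun x : X (r + 2) => 2 ^ (r + 1) < ip y x)).card : ℝ)
        ≤ ∑ y ∈ I, (256 / 27 : ℝ) ^ m := Finset.sum_le_sum fun y _ => conf_bound y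
      _ = I.card * (256 / 27 : ℝ) ^ m := by rw [Finset.sum_const, nsmul_eq_mul]
  have h10 : (16 : ℝ) ^ m / 2 ≤ I.card * (256 / 27 : ℝ) ^ m := hgood.trans h9
  have h11 : (16 : ℝ) ^ m / 2 = (27 / 16 : ℝ) ^ m / 2 * (256 / 27 : ℝ) ^ m := by
    have : (16 : ℝ) ^ m = (27 / 16 : ℝ) ^ m * (256 / 27 : ℝ) ^ m := by
      rw [← mul_pow]; norm_num
    rw [this]; ring
  rw [h11] at h10
  exact le_of_mul_le_mul_right h10 (by positivity)

end Pool.Agent.Helper91.Kissing.Signs
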