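import Pool.Agent.Helper91.Kissing.Count

set_option autoImplicit false

open scoped RealInnerProductSpace
open Finset

namespace Pool.Agent.Helper91.Kissing

open Signs

section Iso

variable {ι : Type*} [Fintype ι]

/-- the diagonal isometry with signs `ε` -/
noncomputable def dg (ε : ι → ℤˣ) : EuclideanSpace ℝ ι ≃ₗᵢ[ℝ] EuclideanSpace ℝ ι :=
  LinearIsometryEquiv.piLpCongrRight 2 (fun i =>
    if ε i = 1 then LinearIsometryEquiv.refl ℝ ℝ else LinearIsometryEquiv.neg ℝ)

lemma dg_apply (ε : ι → ℤˣ) (v : EuclideanSpace ℝ ι) (i : ι) :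
    dg ε v i = ((ε i : ℤˣ) : ℤ) * v i := by
  rw [dg, LinearIsometryEquiv.piLpCongrRight_apply]
  rcases Int.units_eq_one_or (ε i) with h | h
  · simp [h]
  · have : ε i ≠ 1 := by rw [h]; decide
    simp [h]

lemma dg_dg (ε : ι → ℤˣ) (v : EuclideanSpace ℝ ι) : dg ε (dg ε v) = v := by
  ext i
  rw [dg_apply, dg_apply, ← mul_assoc]
  have : (((ε i : ℤˣ) : ℤ) : ℝ) * (((ε i : ℤˣ) : ℤ) : ℝ) = 1 := by
    have := units_sq (ε i)
    have h2 : ((ε i : ℤˣ) : ℤ) * ((ε i : ℤˣ) : ℤ) = 1 := by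
      rw [← Units.val_mul, this]; rfl
    exact_mod_cast h2
  rw [this, one_mul]

/-- the permutation isometry -/
noncomputable def pm (σ : ι ≃ ι) : EuclideanSpace ℝ ι ≃ₗᵢ[ℝ] EuclideanSpace ℝ ι :=
  LinearIsometryEquiv.piLpCongrLeft 2 ℝ ℝ σ

lemma pm_apply (σ : ι ≃ ι) (v : EuclideanSpace ℝ ι) (i : ι) : pm σ v i = v (σ.symm i) := rfl

end Iso

section Conf

variable {ι : Type*} [Fintype ι] {n r : ℕ} (φ : ι ≃ Fin n × J (r + 2))

open Classical in
/-- the vector attached to a copy `l` and a sign vector `x` -/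
noncomputable def vc (l : Fin n) (x : X (r + 2)) : EuclideanSpace ℝ ι :=
  WithLp.toLp 2 (fun i => if (φ i).1 = l then (((x (φ i).2 : ℤˣ) : ℤ) : ℝ) / Real.sqrt (2 ^ (r + 2))
    else 0)

open Classical in
lemma vc_apply (l : Fin n) (x : X (r + 2)) (i : ι) :
    vc φ l x i = if (φ i).1 = l then (((x (φ i).2 : ℤˣ) : ℤ) : ℝ) / Real.sqrt (2 ^ (r + 2))
      else 0 := rfl

open Classical in
lemma inner_vc (l l' : Fin n) (x x' : X (r + 2)) :
    ⟪vc φ l x, vc φ l' x'⟫ = if l = l' then ((ip x x' : ℤ) : ℝ) / 2 ^ (r + 2) else 0 := by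
  rw [PiLp.inner_apply]
  have h1 : ∀ i, ⟪vc φ l x i, vc φ l' x' i⟫ =
      (fun k : Fin n × J (r + 2) => (if k.1 = l then (((x k.2 : ℤˣ) : ℤ) : ℝ) / Real.sqrt (2 ^ (r + 2))
      else 0) * (if k.1 = l' then (((x' k.2 : ℤˣ) : ℤ) : ℝ) / Real.sqrt (2 ^ (r + 2)) else 0)) (φ i) := by
    intro i
    rw [vc_apply, vc_apply, real_inner_comm]
    rfl
  simp_rw [h1]
  rw [Equiv.sum_comp φ (fun k : Fin n × J (r + 2) =>
    (if k.1 = l then (((x k.2 : ℤˣ) : ℤ) : ℝ) / Real.sqrt (2 ^ (r + 2))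
      else 0) * (if k.1 = l' then (((x' k.2 : ℤˣ) : ℤ) : ℝ) / Real.sqrt (2 ^ (r + 2)) else 0))]
  rw [Fintype.sum_prod_type]
  have hs : Real.sqrt (2 ^ (r + 2)) * Real.sqrt (2 ^ (r + 2)) = 2 ^ (r + 2) :=
    Real.mul_self_sqrt (by positivity)
  rw [Finset.sum_eq_single l]
  · by_cases h : l = l'
    · subst h
      simp only [if_true]
      unfold ip
      push_cast
      rw [Finset.sum_div]
      refine Finset.sum_congr rfl fun j _ => ?_
      rw [div_mul_div_comm, hs]
    · simp [h]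
  · intro b _ hb
    simp [hb]
  · simp

lemma ip_self (x : X (r + 2)) : ip x x = 2 ^ (r + 2) := by
  unfold ip
  have : ∀ j, ((x j * x j : ℤˣ) : ℤ) = 1 := fun j => by rw [units_sq]; rfl
  simp only [this]
  simp [J, ZMod.card]

lemma vc_injective : Function.Injective (fun t : Fin n × X (r + 2) => vc φ t.1 t.2) := by
  classical
  rintro ⟨l, x⟩ ⟨l', x'⟩ h
  simp only at h
  have hs : 0 < Real.sqrt (2 ^ (r + 2)) := Real.sqrt_pos.2 (by positivity)
  have hne : ∀ u : ℤˣ, (((u : ℤˣ) : ℤ) : ℝ) ≠ 0 := by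
    intro u
    rcases Int.units_eq_one_or u with h | h <;> simp [h]
  have hl : l = l' := by
    by_contra hne'
    have h1 := congrArg (fun v : EuclideanSpace ℝ ι => v (φ.symm (l, 0))) h
    simp only [vc_apply, Equiv.apply_symm_apply, if_true, if_neg hne'] at h1
    have := div_ne_zero (hne (x 0)) hs.ne'
    exact this h1
  subst hl
  congr 1
  funext j
  have h1 := congrArg (fun v : EuclideanSpace ℝ ι => v (φ.symm (l, j))) h
  simp only [vc_apply, Equiv.apply_symm_apply, if_true] at h1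
  rw [div_left_inj' hs.ne'] at h1
  have h2 : ((x j : ℤˣ) : ℤ) = ((x' j : ℤˣ) : ℤ) := by exact_mod_cast h1
  exact Units.ext h2

open Classical in
/-- the configuration -/
noncomputable def conf (I : Finset (X (r + 2))) : Finset (EuclideanSpace ℝ ι) :=
  ((univ : Finset (Fin n)) ×ˢ I).image (fun t => vc φ t.1 t.2)

lemma mem_conf {I : Finset (X (r + 2))} {v : EuclideanSpace ℝ ι} :
    v ∈ conf φ I ↔ ∃ l, ∃ x ∈ I, vc φ l x = v := by
  simp only [conf, Finset.mem_image, Finset.mem_product, Finset.mem_univ, true_and, Prod.exists,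
    exists_and_left]

lemma card_conf (I : Finset (X (r + 2))) : (conf φ I).card = n * I.card := by
  rw [conf, Finset.card_image_of_injective _ (vc_injective φ), Finset.card_product]
  simp

lemma conf_isKissing {I : Finset (X (r + 2))} (hI : Free I) : IsKissing (conf φ I) := by
  constructor
  · intro v hv
    obtain ⟨l, x, hx, rfl⟩ := (mem_conf φ).1 hv
    have h1 := inner_vc φ l l x x
    rw [if_pos rfl, ip_self, real_inner_self_eq_norm_sq] at h1
    have h2 : ‖vc φ l x‖ ^ 2 = 1 := by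
      rw [h1]; push_cast; exact div_self (by positivity)
    have h3 : 0 ≤ ‖vc φ l x‖ := norm_nonneg _
    nlinarith
  · intro v hv w hw hvw
    obtain ⟨l, x, hx, rfl⟩ := (mem_conf φ).1 hv
    obtain ⟨l', x', hx', rfl⟩ := (mem_conf φ).1 hw
    rw [inner_vc]
    split_ifs with h
    · subst h
      have hne : x ≠ x' := fun h => hvw (by rw [h])
      have h1 := hI x hx x' hx' hne
      have h2 : ((ip x x' : ℤ) : ℝ) ≤ 2 ^ (r + 1) := by exact_mod_cast h1
      rw [div_le_iff₀ (by positivity)]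
      calc ((ip x x' : ℤ) : ℝ) ≤ 2 ^ (r + 1) := h2
        _ = 1 / 2 * 2 ^ (r + 2) := by ring
    · norm_num

/-- the symmetry group of a configuration -/
def sym {V : Type*} [NormedAddCommGroup V] [InnerProductSpace ℝ V] (C : Finset V) :
    Subgroup (V ≃ₗᵢ[ℝ] V) where
  carrier := {g | ∀ v ∈ C, g v ∈ C ∧ g⁻¹ v ∈ C}
  mul_mem' := by
    intro g h hg hh v hv
    refine ⟨?_, ?_⟩
    · exact (hg _ ((hh v hv).1)).1
    · rw [mul_inv_rev]
      exact (hh _ ((hg v hv).2)).2
  one_mem' := by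
    intro v hv
    exact ⟨hv, by simpa using hv⟩
  inv_mem' := by
    intro g hg v hv
    exact ⟨(hg v hv).2, by rw [inv_inv]; exact (hg v hv).1⟩

lemma dg_mem_sym {I : Finset (X (r + 2))} (hI : Closed I) (e : Fin n → X (r + 2))
    (he : ∀ l, e l ∈ (E : Set (X (r + 2)))) :
    dg (fun i => e (φ i).1 (φ i).2) ∈ sym (conf φ I) := by
  classical
  set ε : ι → ℤˣ := fun i => e (φ i).1 (φ i).2 with hε
  have h1 : ∀ v ∈ conf φ I, dg ε v ∈ conf φ I := by
    intro v hv
    obtain ⟨l, x, hx, rfl⟩ := (mem_conf φ).1 hv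
    rw [mem_conf]
    refine ⟨l, e l * x, ?_, ?_⟩
    · have := hI (e l) (he l) 0 x hx
      rwa [mv, tr_zero] at this
    · ext i
      rw [dg_apply, vc_apply, vc_apply]
      split_ifs with h
      · rw [hε, ← h]
        simp only [Pi.mul_apply]
        push_cast
        ring
      · simp
  have h2 : (dg ε)⁻¹ = dg ε := by
    rw [inv_eq_iff_mul_eq_one]
    apply LinearIsometryEquiv.ext
    intro v
    exact dg_dg ε v
  intro v hv
  rw [h2]
  exact ⟨h1 v hv, h1 v hv⟩

/-- the permutation of the index set -/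
def perm (π : Fin n ≃ Fin n) (p : J (r + 2)) : ι ≃ ι :=
  φ.trans ((Equiv.prodCongr π (Equiv.addRight p)).trans φ.symm)

lemma pm_vc (π : Fin n ≃ Fin n) (p : J (r + 2)) (l : Fin n) (x : X (r + 2)) :
    pm (perm φ π p) (vc φ l x) = vc φ (π l) (tr p x) := by
  classical
  ext i
  rw [pm_apply, vc_apply, vc_apply]
  have h1 : φ ((perm φ π p).symm i) = (π.symm (φ i).1, (φ i).2 + p) := by
    apply Prod.ext
    · simp [perm]
    · simp only [perm, Equiv.symm_trans_apply, Equiv.symm_symm, Equiv.apply_symm_apply]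
      show (φ i).2 + -p = (φ i).2 + p
      congr 1
      rw [neg_eq_iff_add_eq_zero]
      exact two_eq p
  rw [h1]
  have h2 : (π.symm (φ i).1 = l) ↔ ((φ i).1 = π l) := by
    rw [Equiv.symm_apply_eq]
  simp only [h2]
  rfl

lemma pm_mem_sym {I : Finset (X (r + 2))} (hI : Closed I) (π : Fin n ≃ Fin n) (p : J (r + 2)) :
    pm (perm φ π p) ∈ sym (conf φ I) := by
  have h1 : ∀ (π : Fin n ≃ Fin n), ∀ v ∈ conf φ I, pm (perm φ π p) v ∈ conf φ I := by
    intro π v hv
    obtain ⟨l, x, hx, rfl⟩ := (mem_conf φ).1 hv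
    rw [mem_conf]
    refine ⟨π l, tr p x, ?_, (pm_vc φ π p l x).symm⟩
    have := hI 1 E_one p x hx
    rwa [mv, one_mul] at this
  have h2 : (pm (perm φ π p))⁻¹ = pm (perm φ π.symm p) := by
    rw [inv_eq_iff_mul_eq_one]
    apply LinearIsometryEquiv.ext
    intro v
    ext i
    show pm (perm φ π p) (pm (perm φ π.symm p) v) i = v i
    rw [pm_apply, pm_apply]
    have h3 : (perm φ π.symm p).symm ((perm φ π p).symm i) = i := by
      rw [Equiv.symm_apply_eq, Equiv.symm_apply_eq]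
      simp only [perm, Equiv.trans_apply, Equiv.apply_symm_apply, Equiv.prodCongr_apply, Prod.map,
        Equiv.coe_addRight, add_assoc, two_eq, add_zero, Equiv.apply_symm_apply]
      simp
    rw [h3]
  intro v hv
  rw [h2]
  exact ⟨h1 π v hv, h1 π.symm v hv⟩

end Conf

end Pool.Agent.Helper91.Kissing
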