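import Pool.Agent.Helper91.Kissing.Example

set_option autoImplicit false

open scoped RealInnerProductSpace
open Finset

namespace Pool.Agent.Helper91.Kissing

open Signs

section Irr

variable {ι : Type*} [Fintype ι] [DecidableEq ι]

/-- Irreducibility criterion: sign diagonals separating the coordinates and coordinate
permutations acting transitively. -/
lemma irreducible_of {G : Subgroup (EuclideanSpace ℝ ι ≃ₗᵢ[ℝ] EuclideanSpace ℝ ι)}
    (hsep : ∀ i j : ι, i ≠ j → ∃ ε : ι → ℤˣ, dg ε ∈ G ∧ ε i ≠ ε j)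
    (htrans : ∀ i j : ι, ∃ σ : ι ≃ ι, pm σ ∈ G ∧ σ i = j) : IsIrreducibleGroup G := by
  intro W hW
  by_cases hbot : W = ⊥
  · left; exact hbot
  right
  obtain ⟨w0, hw0, hw0ne⟩ := (Submodule.ne_bot_iff W).1 hbot
  let S : EuclideanSpace ℝ ι → Finset ι := fun w => univ.filter (fun i => w i ≠ 0)
  have hex : ∃ k, ∃ w ∈ W, w ≠ 0 ∧ (S w).card = k := ⟨_, w0, hw0, hw0ne, rfl⟩
  classical
  obtain ⟨w, hw, hwne, hcard⟩ := Nat.find_spec hex
  have hmin : ∀ w' ∈ W, w' ≠ 0 → (S w).card ≤ (S w').card := by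
    intro w' hw' hne
    rw [hcard]
    exact Nat.find_min' hex ⟨w', hw', hne, rfl⟩
  obtain ⟨i, hi⟩ : ∃ i, w i ≠ 0 := by
    by_contra hcon
    push Not at hcon
    apply hwne
    ext i
    exact hcon i
  have hunique : ∀ j, j ≠ i → w j = 0 := by
    intro j hji
    by_contra hj
    obtain ⟨ε, hε, hne⟩ := hsep i j (Ne.symm hji)
    have hεi : (((ε i : ℤˣ) : ℤ) : ℝ) * (((ε i : ℤˣ) : ℤ) : ℝ) = 1 := by
      have h2 : ((ε i : ℤˣ) : ℤ) * ((ε i : ℤˣ) : ℤ) = 1 := by
        rw [← Units.val_mul, units_sq]; rfl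
      exact_mod_cast h2
    have hεj : (((ε i : ℤˣ) : ℤ) : ℝ) * (((ε j : ℤˣ) : ℤ) : ℝ) = -1 := by
      rcases Int.units_eq_one_or (ε i) with h1 | h1 <;>
        rcases Int.units_eq_one_or (ε j) with h2 | h2
      · exact absurd (h1.trans h2.symm) hne
      · rw [h1, h2]; simp
      · rw [h1, h2]; simp
      · exact absurd (h1.trans h2.symm) hne
    let w' : EuclideanSpace ℝ ι := w + (((ε i : ℤˣ) : ℤ) : ℝ) • dg ε w
    have hw'W : w' ∈ W := W.add_mem hw (W.smul_mem _ (hW _ hε w hw))
    have hval : ∀ k, w' k = w k + (((ε i : ℤˣ) : ℤ) : ℝ) * ((((ε k : ℤˣ) : ℤ) : ℝ) * w k) := by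
      intro k
      simp only [w', PiLp.add_apply, PiLp.smul_apply, smul_eq_mul, dg_apply]
    have h1 : w' i ≠ 0 := by
      rw [hval, ← mul_assoc, hεi]
      intro h
      apply hi
      linarith
    have h2 : w' j = 0 := by
      rw [hval, ← mul_assoc, hεj]
      ring
    have hne' : w' ≠ 0 := by
      intro h
      apply h1
      rw [h]; rfl
    have hsub : S w' ⊂ S w := by
      rw [Finset.ssubset_iff_of_subset]
      · refine ⟨j, ?_, ?_⟩
        · simp only [S, Finset.mem_filter, Finset.mem_univ, true_and]; exact hj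
        · simp only [S, Finset.mem_filter, Finset.mem_univ, true_and, not_not]; exact h2
      · intro k hk
        simp only [S, Finset.mem_filter, Finset.mem_univ, true_and] at hk ⊢
        intro h0
        apply hk
        rw [hval, h0]; ring
    have := Finset.card_lt_card hsub
    have := hmin w' hw'W hne'
    omega
  have hwe : w = w i • EuclideanSpace.single i (1 : ℝ) := by
    ext k
    by_cases hk : k = i
    · subst hk; simp
    · rw [hunique k hk]; simp [hk]
  have hei : EuclideanSpace.single i (1 : ℝ) ∈ W := by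
    have h1 : (w i)⁻¹ • w ∈ W := W.smul_mem _ hw
    rw [hwe, smul_smul] at h1
    have h2 : (w i)⁻¹ * w i = 1 := inv_mul_cancel₀ hi
    have h3 : (w i • EuclideanSpace.single i (1 : ℝ)) i = w i := by simp
    rw [h3, h2, one_smul] at h1
    exact h1
  have hej : ∀ j, EuclideanSpace.single j (1 : ℝ) ∈ W := by
    intro j
    obtain ⟨σ, hσ, hσi⟩ := htrans i j
    have h1 := hW _ hσ _ hei
    have h2 : pm σ (EuclideanSpace.single i (1 : ℝ)) = EuclideanSpace.single j (1 : ℝ) := by
      rw [← hσi]
      exact LinearIsometryEquiv.piLpCongrLeft_single σ i (1 : ℝ)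
    rwa [h2] at h1
  rw [eq_top_iff]
  intro v _
  have h1 : v = ∑ j, v j • EuclideanSpace.single j (1 : ℝ) := by
    ext k
    simp [Finset.sum_apply, Pi.single_apply]
  rw [h1]
  exact W.sum_mem fun j _ => W.smul_mem _ (hej j)

/-- the moved dimension of a diagonal sign isometry is at most the number of `-1`s. -/
lemma movedDim_dg_le (ε : ι → ℤˣ) :
    movedDim (dg ε) ≤ (univ.filter (fun i => ε i ≠ 1)).card := by
  classical
  set S := univ.filter (fun i => ε i ≠ 1) with hS
  have h1 : (fixedSpace (dg ε))ᗮ ≤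
      Submodule.span ℝ (S.image (fun i => (EuclideanSpace.single i (1 : ℝ) : EuclideanSpace ℝ ι)) :
        Set (EuclideanSpace ℝ ι)) := by
    intro v hv
    have h2 : v = ∑ j ∈ S, v j • EuclideanSpace.single j (1 : ℝ) := by
      ext k
      by_cases hk : k ∈ S
      · simp [Finset.sum_apply, Pi.single_apply, hk]
      · have h3 : v k = 0 := by
          have h4 : EuclideanSpace.single k (1 : ℝ) ∈ fixedSpace (dg ε) := by
            rw [mem_fixedSpace]
            ext l
            rw [dg_apply]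
            by_cases hl : l = k
            · subst hl
              have : ε l = 1 := by
                by_contra h
                exact hk (by simp [hS, h])
              rw [this]; simp
            · simp [hl]
          have h5 := hv _ h4
          rw [EuclideanSpace.inner_single_left] at h5
          simpa using h5
        rw [h3]
        simp [Finset.sum_apply, Pi.single_apply, hk]
    rw [h2]
    apply Submodule.sum_mem
    intro j hj
    apply Submodule.smul_mem
    apply Submodule.subset_span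
    simp only [Finset.coe_image, Set.mem_image, Finset.mem_coe]
    exact ⟨j, hj, rfl⟩
  calc movedDim (dg ε) ≤ Module.finrank ℝ (Submodule.span ℝ
        (S.image (fun i => (EuclideanSpace.single i (1 : ℝ) : EuclideanSpace ℝ ι)) :
        Set (EuclideanSpace ℝ ι))) := Submodule.finrank_mono h1
    _ ≤ (S.image (fun i => (EuclideanSpace.single i (1 : ℝ) : EuclideanSpace ℝ ι))).card :=
        finrank_span_finset_le_card _
    _ ≤ S.card := Finset.card_image_le

end Irr

section Final

variable {r : ℕ}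

lemma card_block : (univ.filter (fun j : J (r + 2) => j 0 = 0 ∧ j 1 = 0)).card = 2 ^ r := by
  have h1 : Fintype.card {j : J (r + 2) // j 0 = 0 ∧ j 1 = 0} = Fintype.card (J r) := by
    apply Fintype.card_congr
    refine ⟨fun j i => j.1 i.succ.succ,
      fun f => ⟨Fin.cons 0 (Fin.cons 0 f), by constructor <;> rfl⟩, ?_, ?_⟩
    · intro j
      apply Subtype.ext
      funext i
      refine Fin.cases ?_ (fun i => ?_) i
      · exact j.2.1.symm
      · refine Fin.cases ?_ (fun i => ?_) i
        · exact j.2.2.symm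
        · rfl
    · intro f
      rfl
  rw [← Fintype.card_subtype, h1]
  simp [J, ZMod.card]


lemma sgn_zero : sgn 0 = 1 := by decide
lemma sgn_one : sgn 1 = -1 := by decide

lemma chi_zero_apply {N : ℕ} (j : J N) : chi (0 : J N) j = 1 := by
  have : (∑ i, (0 : J N) i * j i) = 0 := by simp
  rw [chi, this, sgn_zero]

lemma chi_single {N : ℕ} (k : Fin N) (a : J N) : chi (Pi.single k 1 : J N) a = sgn (a k) := by
  simp only [chi]
  congr 1
  rw [Finset.sum_eq_single k]
  · simp
  · intro b _ hb
    rw [Pi.single_eq_of_ne hb, zero_mul]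
  · simp

lemma sgn_ne {a b : ZMod 2} (h : a ≠ b) : sgn a ≠ sgn b := by
  revert a b; decide

variable {ι : Type*} [Fintype ι] {n : ℕ} (φ : ι ≃ Fin n × J (r + 2))

/-- separating elements of the sign group within a copy -/
def sepA (k : Fin (r + 2)) : X (r + 2) := blk (fun _ _ => 1) * chi (Pi.single k 1)

lemma sepA_mem (k : Fin (r + 2)) : sepA k ∈ (E : Set (X (r + 2))) := ⟨_, _, rfl⟩

lemma sepA_apply (k : Fin (r + 2)) (a : J (r + 2)) : sepA k a = sgn (a k) := by
  simp only [sepA, Pi.mul_apply, blk, one_mul, chi_single]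

/-- the constant `-1` -/
def negOne : X (r + 2) := blk (fun _ _ => -1) * chi 0

lemma negOne_mem : (negOne : X (r + 2)) ∈ (E : Set (X (r + 2))) := ⟨_, _, rfl⟩

lemma negOne_apply (a : J (r + 2)) : negOne a = -1 := by
  simp only [negOne, Pi.mul_apply, blk, chi_zero_apply, mul_one]

open Classical in
/-- constant `-1` on one copy only -/
noncomputable def sepB (l : Fin n) : Fin n → X (r + 2) := fun l' => if l' = l then negOne else 1

lemma sepB_mem (l l' : Fin n) : sepB l l' ∈ (E : Set (X (r + 2))) := by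
  rw [sepB]
  split_ifs
  · exact negOne_mem
  · exact E_one

/-- block sign -/
def blockSign : X (r + 2) := blk (fun a b => if a = 0 ∧ b = 0 then -1 else 1) * chi 0

lemma blockSign_mem : (blockSign : X (r + 2)) ∈ (E : Set (X (r + 2))) := ⟨_, _, rfl⟩

lemma blockSign_apply (a : J (r + 2)) :
    blockSign a = if a 0 = 0 ∧ a 1 = 0 then -1 else 1 := by
  simp only [blockSign, Pi.mul_apply, blk, chi_zero_apply, mul_one]

open Classical in
/-- the block sign on one copy only -/
noncomputable def bs (l : Fin n) : Fin n → X (r + 2) := fun l' => if l' = l then blockSign else 1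

lemma bs_mem (l l' : Fin n) : bs l l' ∈ (E : Set (X (r + 2))) := by
  rw [bs]
  split_ifs
  · exact blockSign_mem
  · exact E_one

lemma conf_irreducible [DecidableEq ι] {I : Finset (X (r + 2))} (hc : Closed I) :
    IsIrreducibleGroup (sym (conf φ I)) := by
  apply irreducible_of
  · intro i j hij
    have hφ : φ i ≠ φ j := fun h => hij (φ.injective h)
    by_cases h1 : (φ i).1 = (φ j).1
    · have h2 : (φ i).2 ≠ (φ j).2 := fun h => hφ (Prod.ext h1 h)
      obtain ⟨k, hk⟩ := Function.ne_iff.1 h2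
      refine ⟨_, dg_mem_sym φ hc (fun _ => sepA k) (fun _ => sepA_mem k), ?_⟩
      rw [sepA_apply, sepA_apply]
      exact sgn_ne hk
    · refine ⟨_, dg_mem_sym φ hc (sepB (φ j).1) (sepB_mem _), ?_⟩
      rw [sepB, if_neg h1, sepB, if_pos rfl, negOne_apply]
      show (1 : ℤˣ) ≠ -1
      decide
  · intro i j
    refine ⟨perm φ (Equiv.swap (φ i).1 (φ j).1) ((φ i).2 + (φ j).2), pm_mem_sym φ hc _ _, ?_⟩
    have h1 : (φ i).2 + ((φ i).2 + (φ j).2) = (φ j).2 := by
      rw [← add_assoc, two_eq, zero_add]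
    simp only [perm, Equiv.trans_apply, Equiv.prodCongr_apply, Prod.map, Equiv.coe_addRight,
      Equiv.swap_apply_left, h1, Prod.mk.eta, Equiv.symm_apply_apply]

lemma bs_ne_one (l : Fin n) (i : ι) : bs l (φ i).1 (φ i).2 ≠ 1 ↔
    ((φ i).1 = l ∧ (φ i).2 0 = 0 ∧ (φ i).2 1 = 0) := by
  rw [bs]
  by_cases h1 : (φ i).1 = l
  · rw [if_pos h1, blockSign_apply]
    by_cases h2 : (φ i).2 0 = 0 ∧ (φ i).2 1 = 0
    · rw [if_pos h2]
      constructor
      · intro _; exact ⟨h1, h2⟩
      · intro _; decide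
    · rw [if_neg h2]
      constructor
      · intro h; exact absurd rfl h
      · intro h; exact absurd h.2 h2
  · rw [if_neg h1]
    constructor
    · intro h; exact absurd rfl h
    · intro h; exact absurd h.1 h1

lemma movedDim_bs [DecidableEq ι] (l : Fin n) :
    movedDim (dg (fun i => bs l (φ i).1 (φ i).2)) ≤ 2 ^ r := by
  refine (movedDim_dg_le _).trans ?_
  rw [← card_block (r := r)]
  apply Finset.card_le_card_of_injOn (fun i => (φ i).2)
  · intro i hi
    have hi' : bs l (φ i).1 (φ i).2 ≠ 1 := by simpa using hi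
    rw [bs_ne_one] at hi'
    simpa using hi'.2
  · intro i hi j hj hij
    have hi' : bs l (φ i).1 (φ i).2 ≠ 1 := by simpa using hi
    have hj' : bs l (φ j).1 (φ j).2 ≠ 1 := by simpa using hj
    rw [bs_ne_one] at hi' hj'
    apply φ.injective
    exact Prod.ext (hi'.1.trans hj'.1.symm) hij

lemma dg_bs_ne_one [DecidableEq ι] (l : Fin n) :
    dg (fun i => bs l (φ i).1 (φ i).2) ≠ 1 := by
  intro h
  have h1 : dg (fun i => bs l (φ i).1 (φ i).2) (EuclideanSpace.single (φ.symm (l, 0)) (1 : ℝ)) =
      EuclideanSpace.single (φ.symm (l, 0)) (1 : ℝ) := by rw [h]; rfl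
  have h2 := congrArg (fun v : EuclideanSpace ℝ ι => v (φ.symm (l, 0))) h1
  have h3 : bs l l (0 : J (r + 2)) = -1 := by
    have := (bs_ne_one φ l (φ.symm (l, 0))).2 (by
      rw [Equiv.apply_symm_apply]; exact ⟨rfl, rfl, rfl⟩)
    rw [Equiv.apply_symm_apply] at this
    exact (Int.units_eq_one_or _).resolve_left this
  simp only [dg_apply, Equiv.apply_symm_apply, h3] at h2
  simp at h2
  norm_num at h2

/-- Exponentially large configurations with irreducible symmetry group and a symmetry moving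
only `2^r` of the `n 2^(r+2)` dimensions. -/
theorem exists_example (n r : ℕ) (hn : 0 < n) (hr : 6 ≤ r) :
    ∃ C : Finset (EuclideanSpace ℝ (Fin (n * 2 ^ (r + 2)))), IsKissing C ∧
      ∃ G : Subgroup (EuclideanSpace ℝ (Fin (n * 2 ^ (r + 2))) ≃ₗᵢ[ℝ]
          EuclideanSpace ℝ (Fin (n * 2 ^ (r + 2)))),
        Preserves G C ∧ IsIrreducibleGroup G ∧ (∃ g ∈ G, g ≠ 1 ∧ movedDim g ≤ 2 ^ r) ∧
          (27 / 16 : ℝ) ^ (2 ^ r) / 2 ≤ C.card := by
  obtain ⟨I, hc, hf, hcard⟩ := exists_large hr
  have hcardι : Fintype.card (Fin n × J (r + 2)) = n * 2 ^ (r + 2) := by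
    rw [Fintype.card_prod, Fintype.card_fin, card_J]
  obtain ⟨φ⟩ : Nonempty (Fin (n * 2 ^ (r + 2)) ≃ Fin n × J (r + 2)) :=
    ⟨(Fintype.equivFinOfCardEq hcardι).symm⟩
  refine ⟨conf φ I, conf_isKissing φ hf, sym (conf φ I), ?_, conf_irreducible φ hc, ?_, ?_⟩
  · intro g hg x hx
    exact (hg x hx).1
  · exact ⟨_, dg_mem_sym φ hc (bs ⟨0, hn⟩) (bs_mem _), dg_bs_ne_one φ _, movedDim_bs φ _⟩
  · rw [card_conf]
    refine hcard.trans ?_
    have : I.card ≤ n * I.card := Nat.le_mul_of_pos_left _ hn
    exact_mod_cast this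

end Final

end Pool.Agent.Helper91.Kissing
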