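import Pool.Agent.Helper91.Kissing.Signs2

set_option autoImplicit false

open Finset

namespace Pool.Agent.Helper91.Kissing.Signs

variable {r : ℕ}

/-- the sign character of `F_2` -/
def sgn (a : ZMod 2) : ℤˣ := if a = 0 then 1 else -1

lemma sgn_add (a b : ZMod 2) : sgn (a + b) = sgn a * sgn b := by
  revert a b; decide

/-- characters of `F_2^N` -/
def chi {N : ℕ} (y : J N) : X N := fun j => sgn (∑ i, y i * j i)

lemma chi_mul {N : ℕ} (y y' : J N) : chi (y + y') = chi y * chi y' := by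
  funext j
  simp only [chi, Pi.mul_apply, Pi.add_apply, add_mul, Finset.sum_add_distrib, sgn_add]

lemma chi_tr {N : ℕ} (y p : J N) : tr p (chi y) = (fun _ => sgn (∑ i, y i * p i)) * chi y := by
  funext j
  simp only [chi, tr, Pi.mul_apply, Pi.add_apply, mul_add, Finset.sum_add_distrib, sgn_add]
  exact mul_comm _ _

/-- block signs: functions of the first two coordinates -/
def blk (s : ZMod 2 → ZMod 2 → ℤˣ) : X (r + 2) := fun j => s (j 0) (j 1)

/-- the sign group -/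
def E : Set (X (r + 2)) := {e | ∃ s y, e = blk s * chi y}

lemma E_mul {e e' : X (r + 2)} (he : e ∈ E) (he' : e' ∈ E) : e * e' ∈ E := by
  obtain ⟨s, y, rfl⟩ := he
  obtain ⟨s', y', rfl⟩ := he'
  refine ⟨fun a b => s a b * s' a b, y + y', ?_⟩
  rw [chi_mul]
  funext j
  simp only [Pi.mul_apply, blk]
  exact mul_mul_mul_comm _ _ _ _

lemma E_tr {e : X (r + 2)} (p : J (r + 2)) (he : e ∈ E) : tr p e ∈ E := by
  obtain ⟨s, y, rfl⟩ := he
  refine ⟨fun a b => s (a + p 0) (b + p 1) * sgn (∑ i, y i * p i), y, ?_⟩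
  rw [tr_mul, chi_tr]
  funext j
  simp only [Pi.mul_apply, blk, tr, Pi.add_apply]
  exact (mul_assoc _ _ _).symm

lemma E_one : (1 : X (r + 2)) ∈ E := by
  refine ⟨fun _ _ => 1, 0, ?_⟩
  funext j
  simp [blk, chi, sgn]

/-- no conflict of a good vector with its images -/
def Good (x : X (r + 2)) : Prop :=
  ∀ e ∈ (E : Set (X (r + 2))), ∀ p, mv e p x = x ∨ ip x (mv e p x) ≤ 2 ^ (r + 1)

def Closed (I : Finset (X (r + 2))) : Prop :=
  ∀ e ∈ (E : Set (X (r + 2))), ∀ p, ∀ x ∈ I, mv e p x ∈ I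

def Free (I : Finset (X (r + 2))) : Prop :=
  ∀ x ∈ I, ∀ y ∈ I, x ≠ y → ip x y ≤ 2 ^ (r + 1)

lemma good_mv {x : X (r + 2)} (hx : Good x) {e : X (r + 2)} (he : e ∈ E) (p : J (r + 2)) :
    Good (mv e p x) := by
  intro e' he' p'
  have h1 : mv (tr p e) p (mv e' p' (mv e p x)) =
      mv (tr p e * tr p e' * tr (p + p') e) (p + p' + p) x := by
    rw [mv_mv, mv_mv]
  have hmem : tr p e * tr p e' * tr (p + p') e ∈ (E : Set (X (r + 2))) :=
    E_mul (E_mul (E_tr p he) (E_tr p he')) (E_tr _ he)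
  have h2 : ip (mv e p x) (mv e' p' (mv e p x)) =
      ip x (mv (tr p e) p (mv e' p' (mv e p x))) := by
    have := ip_mv (tr p e) p (mv e p x) (mv e' p' (mv e p x))
    rw [mv_inv] at this
    exact this.symm
  rcases hx _ hmem (p + p' + p) with h | h
  · left
    rw [← h1] at h
    have h3 := congrArg (mv e p) h
    rwa [mv_inv'] at h3
  · right
    rw [h2, h1]
    exact h

open Classical in
lemma exists_maximal : ∃ I : Finset (X (r + 2)), Closed I ∧ Free I ∧ (∀ x ∈ I, Good x) ∧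
    ∀ x, Good x → ∃ y ∈ I, 2 ^ (r + 1) < ip y x := by
  let F : Finset (Finset (X (r + 2))) :=
    univ.filter (fun I => Closed I ∧ Free I ∧ ∀ x ∈ I, Good x)
  have hF : F.Nonempty := by
    refine ⟨∅, ?_⟩
    simp only [F, Finset.mem_filter, Finset.mem_univ, true_and]
    refine ⟨?_, ?_, ?_⟩
    · intro e _ p x hx; simp at hx
    · intro x hx; simp at hx
    · intro x hx; simp at hx
  obtain ⟨I, hI, hmax⟩ := F.exists_max_image Finset.card hF
  simp only [F, Finset.mem_filter, Finset.mem_univ, true_and] at hI hmax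
  obtain ⟨hc, hf, hg⟩ := hI
  refine ⟨I, hc, hf, hg, ?_⟩
  intro x hx
  by_contra hcon
  push Not at hcon
  have hself : ∀ z : X (r + 2), ip z z = 2 ^ (r + 2) := by
    intro z
    unfold ip
    have : ∀ j, ((z j * z j : ℤˣ) : ℤ) = 1 := fun j => by rw [units_sq]; rfl
    simp only [this]
    simp [J, ZMod.card]
  have hxI : x ∉ I := by
    intro hxI
    have := hcon x hxI
    rw [hself] at this
    have h2 : (2 : ℤ) ^ (r + 1) < 2 ^ (r + 2) := by
      apply pow_lt_pow_right₀ (by norm_num) (by omega)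
    omega
  let O : Finset (X (r + 2)) := univ.filter (fun z => ∃ e ∈ (E : Set (X (r + 2))), ∃ p, z = mv e p x)
  have hO : ∀ z, z ∈ O ↔ ∃ e ∈ (E : Set (X (r + 2))), ∃ p, z = mv e p x := by
    intro z; simp [O]
  have hxO : x ∈ O := (hO x).2 ⟨1, E_one, 0, by simp [mv, tr_zero]⟩
  have hOclosed : Closed O := by
    intro e he p z hz
    obtain ⟨e', he', p', rfl⟩ := (hO z).1 hz
    rw [hO]
    exact ⟨_, E_mul he (E_tr p he'), _, mv_mv _ _ _ _ _⟩
  have hOgood : ∀ z ∈ O, Good z := by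
    intro z hz
    obtain ⟨e, he, p, rfl⟩ := (hO z).1 hz
    exact good_mv hx he p
  have hOfree : Free O := by
    intro z hz w hw hzw
    obtain ⟨e, he, p, rfl⟩ := (hO z).1 hz
    have hgz := hOgood _ hz
    -- w is an image of z
    obtain ⟨e', he', p', rfl⟩ := (hO w).1 hw
    have h1 : mv e' p' x = mv (e' * tr p' (tr p e)) (p' + p) (mv e p x) := by
      rw [← mv_mv, mv_inv]
    rcases hgz _ (E_mul he' (E_tr p' (E_tr p he))) (p' + p) with h | h
    · exfalso
      rw [← h1] at h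
      exact hzw h.symm
    · rw [h1]; exact h
  have hcross : ∀ z ∈ O, ∀ y ∈ I, ip z y ≤ 2 ^ (r + 1) := by
    intro z hz y hy
    obtain ⟨e, he, p, rfl⟩ := (hO z).1 hz
    have h1 := ip_mv (tr p e) p (mv e p x) y
    rw [mv_inv] at h1
    rw [← h1, ip_comm]
    exact hcon _ (hc _ (E_tr p he) p y hy)
  have hbig := hmax (I ∪ O) (by
    refine ⟨?_, ?_, ?_⟩
    · intro e he p z hz
      rcases Finset.mem_union.1 hz with h | h
      · exact Finset.mem_union_left _ (hc e he p z h)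
      · exact Finset.mem_union_right _ (hOclosed e he p z h)
    · intro z hz w hw hzw
      rcases Finset.mem_union.1 hz with h | h <;> rcases Finset.mem_union.1 hw with h' | h'
      · exact hf z h w h' hzw
      · rw [ip_comm]; exact hcross w h' z h
      · exact hcross z h w h'
      · exact hOfree z h w h' hzw
    · intro z hz
      rcases Finset.mem_union.1 hz with h | h
      · exact hg z h
      · exact hOgood z h)
  have hlt : I.card < (I ∪ O).card := by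
    apply Finset.card_lt_card
    rw [Finset.ssubset_iff_of_subset Finset.subset_union_left]
    exact ⟨x, Finset.mem_union_right _ hxO, hxI⟩
  omega

/-! ### counting -/

lemma sqrt3_sq : Real.sqrt 3 * Real.sqrt 3 = 3 := Real.mul_self_sqrt (by norm_num)

lemma conf_bound (y : X (r + 2)) :
    ((univ.filter (fun x : X (r + 2) => 2 ^ (r + 1) < ip y x)).card : ℝ) ≤
      (256 / 27 : ℝ) ^ (2 ^ r) := by
  have h3 : (1 : ℝ) ≤ Real.sqrt 3 := by
    rw [show (1 : ℝ) = Real.sqrt 1 by simp]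
    exact Real.sqrt_le_sqrt (by norm_num)
  have h := conflicts_le y (2 ^ (r + 1)) (Real.sqrt 3) h3
  have h30 : (0 : ℝ) < Real.sqrt 3 := by linarith
  have e1 : (Real.sqrt 3 : ℝ) ^ ((2 : ℤ) ^ (r + 1)) = 3 ^ (2 ^ r) := by
    have : ((2 : ℤ) ^ (r + 1)) = ((2 * 2 ^ r : ℕ) : ℤ) := by push_cast; ring
    rw [this, zpow_natCast, pow_mul, sq, sqrt3_sq]
  have e2 : (Real.sqrt 3 + (Real.sqrt 3)⁻¹) ^ (2 ^ (r + 2)) = (256 / 9 : ℝ) ^ (2 ^ r) := by
    have : (2 : ℕ) ^ (r + 2) = 4 * 2 ^ r := by ring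
    rw [this, pow_mul]
    congr 1
    have h4 : (Real.sqrt 3)⁻¹ = Real.sqrt 3 / 3 := by
      rw [eq_div_iff (by norm_num), inv_mul_eq_div, div_eq_iff h30.ne']
      exact sqrt3_sq.symm
    rw [h4]
    have h5 : (Real.sqrt 3 + Real.sqrt 3 / 3) ^ 2 = 16 / 3 := by
      have : (Real.sqrt 3 + Real.sqrt 3 / 3) ^ 2 = (16 / 9) * (Real.sqrt 3 * Real.sqrt 3) := by ring
      rw [this, sqrt3_sq]; norm_num
    calc (Real.sqrt 3 + Real.sqrt 3 / 3) ^ 4 = ((Real.sqrt 3 + Real.sqrt 3 / 3) ^ 2) ^ 2 := by ring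
      _ = 256 / 9 := by rw [h5]; norm_num
  rw [e1, e2] at h
  have h6 : (256 / 9 : ℝ) ^ (2 ^ r) = (256 / 27) ^ (2 ^ r) * 3 ^ (2 ^ r) := by
    rw [← mul_pow]; norm_num
  rw [h6] at h
  exact le_of_mul_le_mul_right h (by positivity)

lemma self_bound (e : X (r + 2)) {p : J (r + 2)} (hp : p ≠ 0) :
    ((univ.filter (fun x : X (r + 2) => 2 ^ (r + 1) < ip x (mv e p x))).card : ℝ) ≤
      (64 / (3 * Real.sqrt 3) : ℝ) ^ (2 ^ r) := by
  have h30 : (0 : ℝ) < Real.sqrt 3 := Real.sqrt_pos.2 (by norm_num)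
  set v : ℝ := Real.sqrt (Real.sqrt 3) with hv
  have hvv : v * v = Real.sqrt 3 := Real.mul_self_sqrt h30.le
  have h3 : (1 : ℝ) ≤ Real.sqrt 3 := by
    rw [show (1 : ℝ) = Real.sqrt 1 by simp]
    exact Real.sqrt_le_sqrt (by norm_num)
  have hv1 : 1 ≤ v := by
    rw [hv, show (1 : ℝ) = Real.sqrt 1 by simp]
    exact Real.sqrt_le_sqrt h3
  have h := self_le e hp (2 ^ (r + 1)) v hv1
  have e1 : (v : ℝ) ^ ((2 : ℤ) ^ (r + 1)) = (Real.sqrt 3) ^ (2 ^ r) := by
    have : ((2 : ℤ) ^ (r + 1)) = ((2 * 2 ^ r : ℕ) : ℤ) := by push_cast; ring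
    rw [this, zpow_natCast, pow_mul, sq, hvv]
  have e2 : (2 * (v ^ (2 : ℤ) + v ^ (-2 : ℤ))) ^ (2 ^ (r + 2 - 1)) = (64 / 3 : ℝ) ^ (2 ^ r) := by
    have h7 : (2 : ℕ) ^ (r + 2 - 1) = 2 * 2 ^ r := by
      rw [show r + 2 - 1 = r + 1 by omega]; ring
    rw [h7, pow_mul]
    congr 1
    have h8 : v ^ (2 : ℤ) = Real.sqrt 3 := by
      rw [show (2 : ℤ) = ((2 : ℕ) : ℤ) by norm_num, zpow_natCast, sq, hvv]
    have h9 : v ^ (-2 : ℤ) = Real.sqrt 3 / 3 := by
      rw [zpow_neg, h8]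
      rw [eq_div_iff (by norm_num), inv_mul_eq_div, div_eq_iff h30.ne']
      exact sqrt3_sq.symm
    rw [h8, h9]
    have : (2 * (Real.sqrt 3 + Real.sqrt 3 / 3)) ^ 2 = (64 / 9) * (Real.sqrt 3 * Real.sqrt 3) := by
      ring
    rw [this, sqrt3_sq]; norm_num
  rw [e1, e2] at h
  have h6 : (64 / 3 : ℝ) ^ (2 ^ r) = (64 / (3 * Real.sqrt 3)) ^ (2 ^ r) * (Real.sqrt 3) ^ (2 ^ r) := by
    rw [← mul_pow]
    congr 1
    field_simp
  rw [h6] at h
  exact le_of_mul_le_mul_right h (by positivity)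

end Pool.Agent.Helper91.Kissing.Signs
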