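import Pool.Agent.Helper91.Kissing.Main

set_option autoImplicit false

open scoped RealInnerProductSpace
open Classical

namespace Pool.Agent.Helper91.Kissing

variable {V : Type*} [NormedAddCommGroup V] [InnerProductSpace ℝ V] [FiniteDimensional ℝ V]

/-- The number of dimensions moved by `g`: the codimension of its fixed space. -/
noncomputable def movedDim (g : V ≃ₗᵢ[ℝ] V) : ℕ :=
  Module.finrank ℝ ((fixedSpace g)ᗮ : Submodule ℝ V)

lemma movedDim_pos {g : V ≃ₗᵢ[ℝ] V} (hg : g ≠ 1) : 0 < movedDim g := by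
  rw [movedDim, Module.finrank_pos_iff, ← not_subsingleton_iff_nontrivial]
  intro hsub
  apply hg
  have h1 : (fixedSpace g)ᗮ = ⊥ := Submodule.eq_bot_of_subsingleton
  have h2 : fixedSpace g = ⊤ := (Submodule.orthogonal_eq_bot_iff).1 h1
  apply LinearIsometryEquiv.ext
  intro v
  have : v ∈ fixedSpace g := by rw [h2]; trivial
  exact this

lemma cnt_bot {C : Finset V} (hC : IsKissing C) {W : Submodule ℝ V}
    (hW : Module.finrank ℝ W = 0) : cnt C W = 0 := by
  have h1 : W = ⊥ := Submodule.finrank_eq_zero.1 hW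
  rw [cnt, Finset.card_eq_zero, Finset.filter_eq_empty_iff]
  intro x hx hxW
  rw [h1, Submodule.mem_bot] at hxW
  have := hC.1 x hx
  rw [hxW, norm_zero] at this
  norm_num at this

lemma pow_cond {β : ℕ} {y0 y : ℝ} (hy0 : 0 < y0) (hy01 : y0 ≤ 1) (h : (1 - y0) ^ β ≤ 1 - 4 * y0)
    (hy : 0 ≤ y) (hyy : y ≤ y0) : (1 - y) ^ β ≤ 1 - 4 * y := by
  have hconv := convexOn_pow (𝕜 := ℝ) β
  set t := y / y0 with ht
  have ht0 : 0 ≤ t := by positivity
  have ht1 : t ≤ 1 := by rw [ht, div_le_one hy0]; exact hyy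
  have hy' : y = t * y0 := by rw [ht]; field_simp
  have hmem : (1 - y0) ∈ Set.Ici (0 : ℝ) := by simp; linarith
  have hmem1 : (1 : ℝ) ∈ Set.Ici (0 : ℝ) := by simp
  have := hconv.2 hmem hmem1 ht0 (by linarith : (0 : ℝ) ≤ 1 - t) (by ring)
  simp only [smul_eq_mul, one_pow, mul_one] at this
  have e1 : t * (1 - y0) + (1 - t) = 1 - y := by rw [hy']; ring
  rw [e1] at this
  calc (1 - y) ^ β ≤ t * (1 - y0) ^ β + (1 - t) := this
    _ ≤ t * (1 - 4 * y0) + (1 - t) := by
        have := mul_le_mul_of_nonneg_left h ht0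
        linarith
    _ = 1 - 4 * y := by rw [hy']; ring

theorem cnt_le {G : Subgroup (V ≃ₗᵢ[ℝ] V)} [Fintype G] {C : Finset V} (hC : IsKissing C)
    (hG : Preserves G C) (hirr : IsIrreducibleGroup G) {g : V ≃ₗᵢ[ℝ] V} (hg : g ∈ G)
    (hk : 0 < movedDim g) {M β : ℕ} {y0 : ℝ} (hy0 : 0 < y0) (hy01 : y0 ≤ 1)
    (hy : (1 - y0) ^ β ≤ 1 - 4 * y0) (hM : (movedDim g : ℝ) ≤ y0 * (M + 1)) :
    ∀ (n : ℕ) (W : Submodule ℝ V), Module.finrank ℝ W = n → cnt C W ≤ n ^ β * tau M := by
  intro n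
  induction n using Nat.strong_induction_on with
  | _ n ih =>
    intro W hW
    rcases Nat.eq_zero_or_pos n with h0 | hn
    · rw [cnt_bot hC (by omega)]; exact Nat.zero_le _
    rcases le_or_gt n M with hnM | hnM
    · have h1 : cnt C W ≤ tau M := hC.card_filter_le_tau W (by omega)
      calc cnt C W ≤ tau M := h1
        _ = 1 ^ β * tau M := by simp
        _ ≤ n ^ β * tau M := Nat.mul_le_mul_right _ (Nat.pow_le_pow_left hn β)
    obtain ⟨W', -, hlt, hle, hstep⟩ := exists_step hC hG hirr hg hk W (by omega)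
    rw [hW] at hlt hle hstep
    set n' := Module.finrank ℝ W' with hn'
    have hle' : n ≤ n' + movedDim g := hle
    have ih' := ih n' hlt W' rfl
    -- the ratio
    set y : ℝ := ((n : ℝ) - n') / n with hydef
    have hnR : (0 : ℝ) < n := by exact_mod_cast hn
    have hn'R : (n' : ℝ) < n := by exact_mod_cast hlt
    have hyn : 0 ≤ y := by
      apply div_nonneg _ hnR.le
      linarith
    have hyle : y ≤ y0 := by
      rw [hydef, div_le_iff₀ hnR]
      have h1 : (n : ℝ) ≤ n' + movedDim g := by exact_mod_cast hle'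
      have h2 : ((M : ℝ) + 1) ≤ n := by exact_mod_cast hnM
      nlinarith
    have hcond := pow_cond hy0 hy01 hy hyn hyle
    have e1 : 1 - y = n' / n := by rw [hydef]; field_simp; ring
    rw [e1] at hcond
    have e2 : (n : ℝ) - 4 * ((n : ℝ) - n') = n * (1 - 4 * y) := by
      rw [hydef]; field_simp
    rw [e2] at hstep
    have h3 : (cnt C W : ℝ) * (n * ((n' : ℝ) / n) ^ β) ≤ cnt C W' * n := by
      refine le_trans ?_ hstep
      apply mul_le_mul_of_nonneg_left _ (by positivity)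
      exact mul_le_mul_of_nonneg_left hcond hnR.le
    have h4 : (cnt C W' : ℝ) ≤ (n' : ℝ) ^ β * tau M := by exact_mod_cast ih'
    have hn'pos : 0 < n' := by
      rcases Nat.eq_zero_or_pos n' with h0 | h0
      · exfalso
        have h5 : (n : ℝ) ≤ movedDim g := by
          have : n ≤ movedDim g := by omega
          exact_mod_cast this
        have h6 : ((M : ℝ) + 1) ≤ n := by exact_mod_cast hnM
        have h7 : y0 * (M + 1) ≤ y0 * n := mul_le_mul_of_nonneg_left h6 hy0.le
        have h8 : 1 ≤ y0 := by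
          by_contra hlt1
          push Not at hlt1
          have : y0 * n < n := by nlinarith
          linarith
        have h9 : y0 = 1 := le_antisymm hy01 h8
        rw [h9] at hy
        have : (0 : ℝ) ≤ (1 - 1 : ℝ) ^ β := by positivity
        linarith
      · exact h0
    have hn'pR : (0 : ℝ) < n' := by exact_mod_cast hn'pos
    have h5 : (cnt C W : ℝ) * (n * ((n' : ℝ) / n) ^ β) ≤ (n' : ℝ) ^ β * tau M * n := by
      refine le_trans h3 ?_
      exact mul_le_mul_of_nonneg_right h4 hnR.le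
    rw [div_pow] at h5
    have h6 : (cnt C W : ℝ) ≤ (n : ℝ) ^ β * tau M := by
      have hp1 : (0 : ℝ) < (n : ℝ) ^ β := by positivity
      have hp2 : (0 : ℝ) < (n' : ℝ) ^ β := by positivity
      have h7 : (cnt C W : ℝ) * (n * ((n' : ℝ) ^ β / (n : ℝ) ^ β)) =
          ((cnt C W : ℝ) / (n : ℝ) ^ β) * ((n' : ℝ) ^ β * n) := by
        field_simp
      rw [h7] at h5
      have h8 : (n' : ℝ) ^ β * tau M * n = tau M * ((n' : ℝ) ^ β * n) := by ring
      rw [h8] at h5
      have h9 : (cnt C W : ℝ) / (n : ℝ) ^ β ≤ tau M := le_of_mul_le_mul_right h5 (by positivity)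
      rw [div_le_iff₀ hp1] at h9
      linarith
    exact_mod_cast h6

/-- the bound for reflections -/
theorem cnt_le_reflection {G : Subgroup (V ≃ₗᵢ[ℝ] V)} [Fintype G] {C : Finset V}
    (hC : IsKissing C) (hG : Preserves G C) (hirr : IsIrreducibleGroup G) {g : V ≃ₗᵢ[ℝ] V}
    (hg : g ∈ G) (hk : movedDim g = 1) :
    ∀ (n : ℕ) (W : Submodule ℝ V), 4 ≤ n → Module.finrank ℝ W = n →
      cnt C W ≤ n.choose 4 * tau 4 := by
  intro n
  induction n using Nat.strong_induction_on with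
  | _ n ih =>
    intro W hn hW
    rcases Nat.eq_or_lt_of_le hn with h0 | hn'
    · have h1 : cnt C W ≤ tau 4 := hC.card_filter_le_tau W (by omega)
      rw [← h0]; simpa using h1
    obtain ⟨W', -, hlt, hle, hstep⟩ := exists_step hC hG hirr hg
      (by show 0 < movedDim g; omega) W (by omega)
    have hle' : Module.finrank ℝ W ≤ Module.finrank ℝ W' + movedDim g := hle
    rw [hk] at hle'
    rw [hW] at hlt hle' hstep
    have hfr : Module.finrank ℝ W' = n - 1 := by omega
    have ih' := ih (n - 1) (by omega) W' (by omega) hfr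
    rw [hfr] at hstep
    have e1 : (n : ℝ) - 4 * ((n : ℝ) - ((n - 1 : ℕ) : ℝ)) = n - 4 := by
      have : ((n - 1 : ℕ) : ℝ) = n - 1 := by
        rw [Nat.cast_sub (by omega)]; simp
      rw [this]; ring
    rw [e1] at hstep
    obtain ⟨m, rfl⟩ : ∃ m, n = m + 1 := ⟨n - 1, by omega⟩
    simp only [Nat.add_sub_cancel] at ih'
    have hchoose : ((m + 1).choose 4 : ℝ) * (m - 3) = (m + 1) * (m.choose 4) := by
      have h1 := Nat.add_one_mul_choose_eq m 3
      have h2 := Nat.choose_succ_right_eq m 3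
      have h1' : ((m : ℝ) + 1) * (m.choose 3) = ((m + 1).choose 4) * 4 := by exact_mod_cast h1
      have h2' : ((m.choose 4 : ℕ) : ℝ) * 4 = (m.choose 3) * (m - 3) := by
        have : ((m - 3 : ℕ) : ℝ) = m - 3 := by rw [Nat.cast_sub (by omega)]; simp
        rw [← this]
        exact_mod_cast h2
      have h3 : ((m + 1).choose 4 : ℝ) * 4 * (m - 3) = (m + 1) * (m.choose 4 * 4) := by
        rw [← h1', h2']; ring
      linarith
    have hm : (0 : ℝ) < (m : ℝ) - 3 := by
      have : (3 : ℝ) < m := by exact_mod_cast (by omega : 3 < m)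
      linarith
    have h4 : (cnt C W' : ℝ) ≤ (m.choose 4 : ℝ) * tau 4 := by exact_mod_cast ih'
    have h5 : (cnt C W : ℝ) * (m - 3) ≤ ((m + 1).choose 4 * tau 4 : ℝ) * (m - 3) := by
      have h6 : ((m + 1 : ℕ) : ℝ) - 4 = m - 3 := by push_cast; ring
      rw [h6] at hstep
      calc (cnt C W : ℝ) * (m - 3) ≤ cnt C W' * ((m + 1 : ℕ) : ℝ) := hstep
        _ ≤ ((m.choose 4 : ℝ) * tau 4) * ((m + 1 : ℕ) : ℝ) :=
            mul_le_mul_of_nonneg_right h4 (by positivity)
        _ = ((m + 1) * (m.choose 4 : ℝ)) * tau 4 := by push_cast; ring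
        _ = ((m + 1).choose 4 * tau 4 : ℝ) * (m - 3) := by rw [← hchoose]; ring
    have h6 := le_of_mul_le_mul_right h5 hm
    exact_mod_cast h6

lemma cnt_top (C : Finset V) : cnt C (⊤ : Submodule ℝ V) = C.card := by
  simp [cnt]

/-- General bound: `|C| ≤ d^β τ(M)`. -/
theorem card_le_general {G : Subgroup (V ≃ₗᵢ[ℝ] V)} {C : Finset V} (hC : IsKissing C)
    (hG : Preserves G C) (hirr : IsIrreducibleGroup G) {g : V ≃ₗᵢ[ℝ] V} (hg : g ∈ G)
    (hg1 : g ≠ 1) {M β : ℕ} {y0 : ℝ} (hy0 : 0 < y0) (hy01 : y0 ≤ 1)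
    (hy : (1 - y0) ^ β ≤ 1 - 4 * y0) (hM : (movedDim g : ℝ) ≤ y0 * (M + 1)) :
    C.card ≤ (Module.finrank ℝ V) ^ β * tau M := by
  rcases C.eq_empty_or_nonempty with rfl | hne
  · simp
  have := finite_group hC hG hirr hne
  have := Fintype.ofFinite G
  have h := cnt_le hC hG hirr hg (movedDim_pos hg1) hy0 hy01 hy hM _ (⊤ : Submodule ℝ V) rfl
  rw [cnt_top] at h
  simpa using h

theorem card_le_five {G : Subgroup (V ≃ₗᵢ[ℝ] V)} {C : Finset V} (hC : IsKissing C)
    (hG : Preserves G C) (hirr : IsIrreducibleGroup G) {g : V ≃ₗᵢ[ℝ] V} (hg : g ∈ G)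
    (hg1 : g ≠ 1) : C.card ≤ (Module.finrank ℝ V) ^ 8 * tau (5 * movedDim g) := by
  apply card_le_general hC hG hirr hg hg1 (y0 := 1 / 5) (by norm_num) (by norm_num) (by norm_num)
  push_cast
  linarith

theorem card_le_reflection {G : Subgroup (V ≃ₗᵢ[ℝ] V)} {C : Finset V} (hC : IsKissing C)
    (hG : Preserves G C) (hirr : IsIrreducibleGroup G) {g : V ≃ₗᵢ[ℝ] V} (hg : g ∈ G)
    (hg1 : movedDim g = 1) (hd : 4 ≤ Module.finrank ℝ V) :
    C.card ≤ (Module.finrank ℝ V).choose 4 * tau 4 := by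
  rcases C.eq_empty_or_nonempty with rfl | hne
  · simp
  have := finite_group hC hG hirr hne
  have := Fintype.ofFinite G
  have h := cnt_le_reflection hC hG hirr hg hg1 _ (⊤ : Submodule ℝ V) (by simpa using hd) rfl
  rw [cnt_top] at h
  simpa using h

end Pool.Agent.Helper91.Kissing
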