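import Pool.Agent.Helper91.Kissing.Avg

set_option autoImplicit false

open scoped RealInnerProductSpace
open Classical

namespace Pool.Agent.Helper91.Kissing

variable {V : Type*} [NormedAddCommGroup V] [InnerProductSpace ℝ V] [FiniteDimensional ℝ V]

/-- `C` is mapped into itself by every element of `G`. -/
def Preserves (G : Subgroup (V ≃ₗᵢ[ℝ] V)) (C : Finset V) : Prop :=
  ∀ g ∈ G, ∀ x ∈ C, g x ∈ C

lemma quarter_le {C : Finset V} (hC : IsKissing C) (g : V ≃ₗᵢ[ℝ] V) {w : V} (hw : w ∈ C)
    (hgw : g w ∈ C) (hne : g w ≠ w) :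
    1 / 4 ≤ ‖((fixedSpace g)ᗮ).starProjection w‖ ^ 2 := by
  set F := fixedSpace g with hF
  have h1 : 1 ≤ ‖w - g w‖ := hC.dist_ge hw hgw (Ne.symm hne)
  have h2 : w = F.starProjection w + Fᗮ.starProjection w :=
    (Submodule.starProjection_add_starProjection_orthogonal w).symm
  have h3 : g (F.starProjection w) = F.starProjection w := by
    have : F.starProjection w ∈ F := F.starProjection_apply_mem w
    exact this
  have h4 : w - g w = Fᗮ.starProjection w - g (Fᗮ.starProjection w) := by
    have h5 : g w = F.starProjection w + g (Fᗮ.starProjection w) := by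
      conv_lhs => rw [h2]
      rw [map_add, h3]
    rw [h5]
    nth_rewrite 1 [h2]
    abel
  have h6 : ‖w - g w‖ ≤ 2 * ‖Fᗮ.starProjection w‖ := by
    rw [h4]
    calc ‖Fᗮ.starProjection w - g (Fᗮ.starProjection w)‖
        ≤ ‖Fᗮ.starProjection w‖ + ‖g (Fᗮ.starProjection w)‖ := norm_sub_le _ _
      _ = 2 * ‖Fᗮ.starProjection w‖ := by rw [g.norm_map]; ring
  nlinarith [norm_nonneg (Fᗮ.starProjection w)]

lemma finite_group {G : Subgroup (V ≃ₗᵢ[ℝ] V)} {C : Finset V} (hC : IsKissing C)
    (hG : Preserves G C) (hirr : IsIrreducibleGroup G) (hne : C.Nonempty) : Finite G := by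
  have hspan : Submodule.span ℝ (C : Set V) = ⊤ := by
    have hinv : ∀ g ∈ G, ∀ w ∈ Submodule.span ℝ (C : Set V), g w ∈ Submodule.span ℝ (C : Set V) := by
      intro g hg w hw
      induction hw using Submodule.span_induction with
      | mem x hx => exact Submodule.subset_span (hG g hg x hx)
      | zero => simp
      | add x y _ _ hx hy => rw [map_add]; exact Submodule.add_mem _ hx hy
      | smul a x _ hx => rw [map_smul]; exact Submodule.smul_mem _ _ hx
    rcases hirr _ hinv with h | h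
    · exfalso
      obtain ⟨x, hx⟩ := hne
      have h1 : x ∈ Submodule.span ℝ (C : Set V) := Submodule.subset_span hx
      rw [h, Submodule.mem_bot] at h1
      have := hC.1 x hx
      rw [h1, norm_zero] at this
      norm_num at this
    · exact h
  let φ : G → (C → C) := fun g x => ⟨g.1 x.1, hG g.1 g.2 x.1 x.2⟩
  apply Finite.of_injective φ
  intro g h hgh
  apply Subtype.ext
  apply LinearIsometryEquiv.ext
  intro v
  have hv : v ∈ Submodule.span ℝ (C : Set V) := by rw [hspan]; trivial
  induction hv using Submodule.span_induction with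
  | mem x hx =>
    have := congrFun hgh ⟨x, hx⟩
    simpa [φ] using this
  | zero => simp
  | add x y _ _ hx hy => rw [map_add, map_add, hx, hy]
  | smul a x _ hx => rw [map_smul, map_smul, hx]

/-- number of points of `C` in the subspace `W` -/
noncomputable def cnt (C : Finset V) (W : Submodule ℝ V) : ℕ := (C.filter (· ∈ W)).card

lemma exists_step {G : Subgroup (V ≃ₗᵢ[ℝ] V)} [Fintype G] {C : Finset V} (hC : IsKissing C)
    (hG : Preserves G C) (hirr : IsIrreducibleGroup G) {g : V ≃ₗᵢ[ℝ] V} (hg : g ∈ G)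
    (hk : 0 < Module.finrank ℝ ((fixedSpace g)ᗮ : Submodule ℝ V)) (W : Submodule ℝ V)
    (hW : 0 < Module.finrank ℝ W) :
    ∃ W' : Submodule ℝ V, W' ≤ W ∧ Module.finrank ℝ W' < Module.finrank ℝ W ∧
      Module.finrank ℝ W ≤ Module.finrank ℝ W' + Module.finrank ℝ ((fixedSpace g)ᗮ : Submodule ℝ V) ∧
      (cnt C W : ℝ) * (Module.finrank ℝ W -
        4 * ((Module.finrank ℝ W : ℝ) - Module.finrank ℝ W')) ≤ cnt C W' * Module.finrank ℝ W := by
  have hV : 0 < Module.finrank ℝ V := lt_of_lt_of_le hW (Submodule.finrank_le W)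
  set K : Submodule ℝ V := (fixedSpace g)ᗮ with hK
  set k := Module.finrank ℝ K with hkdef
  set D := Module.finrank ℝ W with hD
  set d := Module.finrank ℝ V with hd
  set c : ℝ := (Fintype.card G * k / d : ℝ) with hc
  have hcard : 0 < Fintype.card G := Fintype.card_pos
  have hcpos : 0 < c := by positivity
  -- the subspaces
  let T : G → (W →ₗ[ℝ] V) := fun h =>
    (K.starProjection : V →ₗ[ℝ] V) ∘ₗ (h⁻¹.1.toLinearEquiv.toLinearMap) ∘ₗ W.subtype
  have hT : ∀ h w, T h w = K.starProjection (h⁻¹.1 (w : V)) := fun h w => rfl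
  let W' : G → Submodule ℝ V := fun h => (LinearMap.ker (T h)).map W.subtype
  have hW'mem : ∀ h v, v ∈ W' h ↔ v ∈ W ∧ K.starProjection (h⁻¹.1 v) = 0 := by
    intro h v
    simp only [W', Submodule.mem_map, LinearMap.mem_ker]
    constructor
    · rintro ⟨w, hw, rfl⟩
      exact ⟨w.2, hw⟩
    · rintro ⟨hv, h0⟩
      exact ⟨⟨v, hv⟩, h0, rfl⟩
  let r : G → ℕ := fun h => Module.finrank ℝ (LinearMap.range (T h))
  have hrank : ∀ h, r h + Module.finrank ℝ (W' h) = D := by
    intro h
    have h1 := (T h).finrank_range_add_finrank_ker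
    have h2 : Module.finrank ℝ (W' h) = Module.finrank ℝ (LinearMap.ker (T h)) :=
      Submodule.finrank_map_subtype_eq W _
    simp only [r]
    omega
  have hrk : ∀ h, r h ≤ k := by
    intro h
    apply Submodule.finrank_mono
    rintro _ ⟨w, rfl⟩
    rw [hT]
    exact K.starProjection_apply_mem _
  -- sum of ranks
  have hsum1 : c * D ≤ ∑ h : G, (r h : ℝ) := by
    let b := stdOrthonormalBasis ℝ W
    have h1 : ∀ h : G, ∑ i, ‖T h (b i)‖ ^ 2 ≤ (r h : ℝ) := by
      intro h
      apply hs_le_finrank_range b (T h)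
      intro w
      rw [hT]
      calc ‖K.starProjection (h⁻¹.1 (w : V))‖ ≤ ‖h⁻¹.1 (w : V)‖ :=
            K.norm_starProjection_apply_le _
        _ = ‖w‖ := by rw [LinearIsometryEquiv.norm_map]; rfl
    calc c * D = ∑ i : Fin D, c * ‖((b i : W) : V)‖ ^ 2 := by
          have : ∀ i, ‖((b i : W) : V)‖ = 1 := fun i => b.orthonormal.1 i
          simp [this, mul_comm]
      _ = ∑ i : Fin D, ∑ h : G, ‖K.starProjection (h⁻¹.1 ((b i : W) : V))‖ ^ 2 := by
          refine Finset.sum_congr rfl fun i _ => ?_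
          rw [avg_eq K hirr hV]
      _ = ∑ h : G, ∑ i, ‖T h (b i)‖ ^ 2 := by
          rw [Finset.sum_comm]
          rfl
      _ ≤ ∑ h : G, (r h : ℝ) := Finset.sum_le_sum fun h _ => h1 h
  -- lost points
  let L : G → ℕ := fun h => ((C.filter (· ∈ W)).filter (fun v => v ∉ W' h)).card
  have hL : ∀ h, L h + cnt C (W' h) = cnt C W := by
    intro h
    have h1 : cnt C (W' h) = ((C.filter (· ∈ W)).filter (fun v => v ∈ W' h)).card := by
      unfold cnt
      congr 1
      ext v
      simp only [Finset.mem_filter]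
      constructor
      · rintro ⟨h1, h2⟩
        exact ⟨⟨h1, ((hW'mem h v).1 h2).1⟩, h2⟩
      · rintro ⟨⟨h1, _⟩, h2⟩
        exact ⟨h1, h2⟩
    rw [h1, add_comm]
    exact Finset.card_filter_add_card_filter_not (s := C.filter (· ∈ W)) (fun v => v ∈ W' h)
  have hsum2 : ∑ h : G, (L h : ℝ) ≤ 4 * c * cnt C W := by
    have h1 : ∀ h : G, (L h : ℝ) ≤ ∑ v ∈ C.filter (· ∈ W), 4 * ‖K.starProjection (h⁻¹.1 v)‖ ^ 2 := by
      intro h
      have h2 : (L h : ℝ) = ∑ v ∈ (C.filter (· ∈ W)).filter (fun v => v ∉ W' h), (1 : ℝ) := by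
        simp [L]
      rw [h2]
      calc ∑ v ∈ (C.filter (· ∈ W)).filter (fun v => v ∉ W' h), (1 : ℝ)
          ≤ ∑ v ∈ (C.filter (· ∈ W)).filter (fun v => v ∉ W' h),
              4 * ‖K.starProjection (h⁻¹.1 v)‖ ^ 2 := by
            refine Finset.sum_le_sum fun v hv => ?_
            rw [Finset.mem_filter, Finset.mem_filter] at hv
            obtain ⟨⟨hvC, hvW⟩, hvn⟩ := hv
            have hvn' : K.starProjection (h⁻¹.1 v) ≠ 0 := fun h0 => hvn ((hW'mem h v).2 ⟨hvW, h0⟩)
            have hmem : h⁻¹.1 v ∈ C := hG _ h⁻¹.2 v hvC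
            have hmem2 : g (h⁻¹.1 v) ∈ C := hG _ hg _ hmem
            have hne : g (h⁻¹.1 v) ≠ h⁻¹.1 v := by
              intro h0
              apply hvn'
              have : h⁻¹.1 v ∈ Kᗮ := by
                rw [hK, Submodule.orthogonal_orthogonal]
                exact h0
              exact (Submodule.starProjection_apply_eq_zero_iff K).2 this
            have := quarter_le hC g hmem hmem2 hne
            linarith
        _ ≤ ∑ v ∈ C.filter (· ∈ W), 4 * ‖K.starProjection (h⁻¹.1 v)‖ ^ 2 := by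
            apply Finset.sum_le_sum_of_subset_of_nonneg (Finset.filter_subset _ _)
            intro v _ _
            positivity
    calc ∑ h : G, (L h : ℝ) ≤ ∑ h : G, ∑ v ∈ C.filter (· ∈ W), 4 * ‖K.starProjection (h⁻¹.1 v)‖ ^ 2 :=
          Finset.sum_le_sum fun h _ => h1 h
      _ = ∑ v ∈ C.filter (· ∈ W), 4 * ∑ h : G, ‖K.starProjection (h⁻¹.1 v)‖ ^ 2 := by
          rw [Finset.sum_comm]
          refine Finset.sum_congr rfl fun v _ => ?_
          rw [Finset.mul_sum]
      _ = ∑ v ∈ C.filter (· ∈ W), 4 * c := by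
          refine Finset.sum_congr rfl fun v hv => ?_
          rw [avg_eq K hirr hV, hC.1 v (Finset.mem_filter.1 hv).1]
          ring
      _ = 4 * c * cnt C W := by
          simp [cnt, mul_comm]
  -- choose h
  by_contra hcon
  push Not at hcon
  have hlt : ∀ h : G, 0 < r h → 4 * (r h : ℝ) * cnt C W < L h * D := by
    intro h hr
    have h0 := hcon (W' h) (fun v hv => ((hW'mem h v).1 hv).1) (by have := hrank h; omega)
      (by have := hrank h; have := hrk h; omega)
    have h1 : (D : ℝ) - Module.finrank ℝ (W' h) = r h := by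
      have := hrank h
      rw [← this]; push_cast; ring
    rw [h1] at h0
    have h2 : (cnt C (W' h) : ℝ) = cnt C W - L h := by
      have := hL h
      rw [← this]; push_cast; ring
    rw [h2] at h0
    nlinarith
  have hzero : ∀ h : G, r h = 0 → L h = 0 := by
    intro h hr
    simp only [L]
    rw [Finset.card_eq_zero, Finset.filter_eq_empty_iff]
    intro v hv
    rw [not_not, hW'mem]
    have hvW := (Finset.mem_filter.1 hv).2
    refine ⟨hvW, ?_⟩
    have h1 : LinearMap.range (T h) = ⊥ := Submodule.finrank_eq_zero.1 hr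
    have h2 : T h ⟨v, hvW⟩ ∈ LinearMap.range (T h) := ⟨_, rfl⟩
    rw [h1, Submodule.mem_bot] at h2
    exact h2
  have hle : ∀ h : G, 4 * (r h : ℝ) * cnt C W ≤ L h * D := by
    intro h
    rcases Nat.eq_zero_or_pos (r h) with h0 | h0
    · rw [h0, hzero h h0]; simp
    · exact (hlt h h0).le
  have hex : ∃ h : G, 0 < r h := by
    by_contra hno
    push Not at hno
    have : ∑ h : G, (r h : ℝ) = 0 := by
      apply Finset.sum_eq_zero
      intro h _
      have := hno h
      have h1 : r h = 0 := by omega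
      simp [h1]
    rw [this] at hsum1
    have : 0 < c * D := by positivity
    linarith
  obtain ⟨h0, hh0⟩ := hex
  have hstrict : ∑ h : G, 4 * (r h : ℝ) * cnt C W < ∑ h : G, (L h : ℝ) * D :=
    Finset.sum_lt_sum (fun h _ => hle h) ⟨h0, Finset.mem_univ _, hlt h0 hh0⟩
  have e1 : ∑ h : G, 4 * (r h : ℝ) * cnt C W = 4 * cnt C W * ∑ h : G, (r h : ℝ) := by
    rw [Finset.mul_sum]
    exact Finset.sum_congr rfl fun h _ => by ring
  have e2 : ∑ h : G, (L h : ℝ) * D = D * ∑ h : G, (L h : ℝ) := by
    rw [Finset.mul_sum]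
    exact Finset.sum_congr rfl fun h _ => by ring
  rw [e1, e2] at hstrict
  have hN : (0 : ℝ) ≤ cnt C W := by positivity
  have hDp : (0 : ℝ) < D := by positivity
  have i1 : 4 * (cnt C W : ℝ) * (c * D) ≤ 4 * cnt C W * ∑ h : G, (r h : ℝ) :=
    mul_le_mul_of_nonneg_left hsum1 (by positivity)
  have i2 : (D : ℝ) * ∑ h : G, (L h : ℝ) ≤ D * (4 * c * cnt C W) :=
    mul_le_mul_of_nonneg_left hsum2 hDp.le
  nlinarith

end Pool.Agent.Helper91.Kissing
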