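import Pool.Agent.Helper91.Kissing.Example2

set_option autoImplicit false

open scoped RealInnerProductSpace
open Filter

namespace Pool.Agent.Helper91.Kissing

/-- The kissing configurations in `ℝ^d` that have an irreducible group of symmetries containing an
element `g ≠ 1` which moves at most `κ d` dimensions. -/
def HasSmallSymmetry {d : ℕ} (κ : ℝ) (C : Finset (EuclideanSpace ℝ (Fin d))) : Prop :=
  ∃ G : Subgroup (EuclideanSpace ℝ (Fin d) ≃ₗᵢ[ℝ] EuclideanSpace ℝ (Fin d)),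
    Preserves G C ∧ IsIrreducibleGroup G ∧ ∃ g ∈ G, g ≠ 1 ∧ (movedDim g : ℝ) ≤ κ * d

/-- The largest size of a kissing configuration in `ℝ^d` with a `κ`-small symmetry. -/
noncomputable def symTau (κ : ℝ) (d : ℕ) : ℕ :=
  sSup {n : ℕ | ∃ C : Finset (EuclideanSpace ℝ (Fin d)),
    IsKissing C ∧ HasSmallSymmetry κ C ∧ C.card = n}

/-- The exponential growth rate of `symTau κ`. -/
noncomputable def symRate (κ : ℝ) : ℝ :=
  limsup (fun d : ℕ => Real.logb 2 (symTau κ d) / d) atTop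

lemma symTau_le_tau (κ : ℝ) (d : ℕ) : symTau κ d ≤ tau d := by
  apply csSup_le'
  rintro n ⟨C, hC, -, rfl⟩
  exact hC.card_le_tau

lemma card_le_symTau {κ : ℝ} {d : ℕ} {C : Finset (EuclideanSpace ℝ (Fin d))} (hC : IsKissing C)
    (hs : HasSmallSymmetry κ C) : C.card ≤ symTau κ d := by
  apply le_csSup
  · refine ⟨tau d, ?_⟩
    rintro n ⟨C, hC, -, rfl⟩
    exact hC.card_le_tau
  · exact ⟨C, hC, hs, rfl⟩

lemma symRate_term_nonneg (κ : ℝ) (d : ℕ) : 0 ≤ Real.logb 2 (symTau κ d) / d := by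
  rcases Nat.eq_zero_or_pos d with rfl | hd
  · simp
  rcases Nat.eq_zero_or_pos (symTau κ d) with h | h
  · rw [h]; simp
  · apply div_nonneg _ (by positivity)
    apply Real.logb_nonneg (by norm_num)
    exact_mod_cast h

lemma symRate_term_le (κ : ℝ) (d : ℕ) :
    Real.logb 2 (symTau κ d) / d ≤ Real.logb 2 (tau d) / d := by
  rcases Nat.eq_zero_or_pos d with rfl | hd
  · simp
  rcases Nat.eq_zero_or_pos (symTau κ d) with h | h
  · rw [h]; simpa using rate_nonneg d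
  · apply div_le_div_of_nonneg_right _ (by positivity)
    apply Real.logb_le_logb_of_le (by norm_num)
    · exact_mod_cast h
    · exact_mod_cast symTau_le_tau κ d

lemma isBounded_symRate (κ : ℝ) :
    IsBoundedUnder (· ≤ ·) atTop (fun d : ℕ => Real.logb 2 (symTau κ d) / d) :=
  isBoundedUnder_of ⟨_, fun d => (symRate_term_le κ d).trans (rate_le d)⟩

lemma isCobounded_symRate (κ : ℝ) :
    IsCoboundedUnder (· ≤ ·) atTop (fun d : ℕ => Real.logb 2 (symTau κ d) / d) :=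
  IsCoboundedUnder.of_frequently_ge
    (Eventually.frequently (Eventually.of_forall (symRate_term_nonneg κ)))

theorem symRate_le {κ : ℝ} (hκ : 0 ≤ κ) : symRate κ ≤ 4 * κ * cPlus := by
  apply le_of_forall_pos_le_add
  intro ε hε
  obtain ⟨d0, hd0⟩ := exponent_bound κ ε hκ hε
  apply limsup_le_of_le (isCobounded_symRate κ)
  rw [eventually_atTop]
  refine ⟨max d0 1, ?_⟩
  intro d hd
  have hd1 : 0 < d := by have := le_max_right d0 1; omega
  have hd2 : d0 ≤ d := (le_max_left d0 1).trans hd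
  have hc := cPlus_nonneg
  have hexp : 0 ≤ (4 * κ * cPlus + ε) * d := by positivity
  have h1 : (symTau κ d : ℝ) ≤ 2 ^ ((4 * κ * cPlus + ε) * d) := by
    have h2 : (symTau κ d) ≤ ⌊(2 : ℝ) ^ ((4 * κ * cPlus + ε) * d)⌋₊ := by
      apply csSup_le'
      rintro n ⟨C, hC, ⟨G, hG, hirr, g, hg, hg1, hmov⟩, rfl⟩
      apply Nat.le_floor
      exact hd0 d hd2 C hC G hG hirr g hg hg1 hmov
    exact (Nat.le_floor_iff (by positivity)).1 h2
  rw [div_le_iff₀ (by positivity)]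
  rcases Nat.eq_zero_or_pos (symTau κ d) with h | h
  · rw [h]
    simp only [Nat.cast_zero, Real.logb_zero]
    exact hexp
  · rw [Real.logb_le_iff_le_rpow (by norm_num) (by exact_mod_cast h)]
    exact h1

lemma exists_example' (n r : ℕ) (hn : 0 < n) (hr : 6 ≤ r) (d : ℕ) (hd : d = n * 2 ^ (r + 2)) :
    ∃ C : Finset (EuclideanSpace ℝ (Fin d)), IsKissing C ∧
      ∃ G : Subgroup (EuclideanSpace ℝ (Fin d) ≃ₗᵢ[ℝ] EuclideanSpace ℝ (Fin d)),
        Preserves G C ∧ IsIrreducibleGroup G ∧ (∃ g ∈ G, g ≠ 1 ∧ movedDim g ≤ 2 ^ r) ∧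
          (27 / 16 : ℝ) ^ (2 ^ r) / 2 ≤ C.card := by
  subst hd
  exact exists_example n r hn hr

theorem le_symRate {n : ℕ} (hn : 0 < n) :
    1 / (4 * n) * Real.logb 2 (27 / 16) ≤ symRate (1 / (4 * n)) := by
  set κ : ℝ := 1 / (4 * n) with hκ
  apply le_of_forall_pos_sub_le
  intro ε hε
  apply le_limsup_of_frequently_le _ (isBounded_symRate κ)
  rw [frequently_atTop]
  intro a
  -- choose r large
  obtain ⟨r0, hr0⟩ := exists_nat_gt (1 / ε)
  set r := max (max r0 6) a with hr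
  have hr6 : 6 ≤ r := (le_max_right r0 6).trans (le_max_left _ _)
  have hra : a ≤ r := le_max_right _ _
  have hrr : r0 ≤ r := (le_max_left r0 6).trans (le_max_left _ _)
  have hpow : r < 2 ^ (r + 2) := by
    calc r < 2 ^ r := Nat.lt_two_pow_self
      _ ≤ 2 ^ (r + 2) := Nat.pow_le_pow_right (by norm_num) (by omega)
  have hdge : 2 ^ (r + 2) ≤ n * 2 ^ (r + 2) := Nat.le_mul_of_pos_left _ hn
  obtain ⟨d, hd⟩ : ∃ d, d = n * 2 ^ (r + 2) := ⟨_, rfl⟩
  refine ⟨d, by omega, ?_⟩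
  obtain ⟨C, hC, G, hG, hirr, ⟨g, hg, hg1, hmov⟩, hcard⟩ := exists_example' n r hn hr6 d hd
  have hnR : (0 : ℝ) < n := by exact_mod_cast hn
  have hdR : (0 : ℝ) < d := by rw [hd]; positivity
  have hκd : κ * d = 2 ^ r := by
    rw [hκ, hd]; push_cast
    field_simp
    ring
  have hsmall : HasSmallSymmetry κ C := by
    refine ⟨G, hG, hirr, g, hg, hg1, ?_⟩
    rw [hκd]
    exact_mod_cast hmov
  have h1 : (27 / 16 : ℝ) ^ (2 ^ r) / 2 ≤ symTau κ d :=
    hcard.trans (by exact_mod_cast card_le_symTau hC hsmall)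
  have h2 : Real.logb 2 ((27 / 16 : ℝ) ^ (2 ^ r) / 2) ≤ Real.logb 2 (symTau κ d) :=
    Real.logb_le_logb_of_le (by norm_num) (by positivity) h1
  have h3 : Real.logb 2 ((27 / 16 : ℝ) ^ (2 ^ r) / 2) = 2 ^ r * Real.logb 2 (27 / 16) - 1 := by
    rw [Real.logb_div (by positivity) (by norm_num), Real.logb_pow, Real.logb_self_eq_one (by norm_num)]
    push_cast; ring
  rw [h3] at h2
  rw [le_div_iff₀ hdR]
  have h4 : (κ * Real.logb 2 (27 / 16) - ε) * d = 2 ^ r * Real.logb 2 (27 / 16) - ε * d := by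
    rw [sub_mul, ← hκd]; ring
  rw [h4]
  have h5 : 1 ≤ ε * d := by
    have h6 : (r0 : ℝ) ≤ d := by
      have : r0 ≤ d := by omega
      exact_mod_cast this
    have h7 : 1 / ε < d := hr0.trans_le h6
    rw [div_lt_iff₀ hε] at h7
    linarith
  linarith

lemma symTau_mono {κ κ' : ℝ} (h : κ ≤ κ') (d : ℕ) : symTau κ d ≤ symTau κ' d := by
  apply csSup_le'
  rintro n ⟨C, hC, ⟨G, hG, hirr, g, hg, hg1, hmov⟩, rfl⟩
  apply card_le_symTau hC
  exact ⟨G, hG, hirr, g, hg, hg1, hmov.trans (mul_le_mul_of_nonneg_right h (by positivity))⟩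

lemma symRate_mono {κ κ' : ℝ} (h : κ ≤ κ') : symRate κ ≤ symRate κ' := by
  apply limsup_le_limsup _ (isCobounded_symRate κ) (isBounded_symRate κ')
  apply Eventually.of_forall
  intro d
  show Real.logb 2 (symTau κ d) / d ≤ Real.logb 2 (symTau κ' d) / d
  rcases Nat.eq_zero_or_pos d with rfl | hd
  · simp
  rcases Nat.eq_zero_or_pos (symTau κ d) with h0 | h0
  · rw [h0]; simpa using symRate_term_nonneg κ' d
  · apply div_le_div_of_nonneg_right _ (by positivity)
    apply Real.logb_le_logb_of_le (by norm_num)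
    · exact_mod_cast h0
    · exact_mod_cast symTau_mono h d

theorem le_symRate' {κ : ℝ} (hκ : 0 < κ) (hκ4 : κ ≤ 1 / 4) :
    κ / 2 * Real.logb 2 (27 / 16) ≤ symRate κ := by
  have hlog : 0 ≤ Real.logb 2 (27 / 16) := Real.logb_nonneg (by norm_num) (by norm_num)
  set n : ℕ := ⌈1 / (4 * κ)⌉₊ with hn
  have h1 : 1 / (4 * κ) ≤ n := Nat.le_ceil _
  have hpos : 0 < 1 / (4 * κ) := by positivity
  have hnR : (0 : ℝ) < n := hpos.trans_le h1
  have hn0 : 0 < n := by exact_mod_cast hnR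
  have h2 : (n : ℝ) < 1 / (4 * κ) + 1 := Nat.ceil_lt_add_one hpos.le
  have h3 : 1 ≤ 1 / (4 * κ) := by
    rw [le_div_iff₀ (by positivity)]; linarith
  have h4 : (n : ℝ) ≤ 1 / (2 * κ) := by
    have : 1 / (2 * κ) = 1 / (4 * κ) + 1 / (4 * κ) := by field_simp; norm_num
    rw [this]; linarith
  have h5 : 1 / (4 * (n : ℝ)) ≤ κ := by
    rw [div_le_iff₀ (by positivity)] at h1 ⊢
    linarith
  have h6 : κ / 2 ≤ 1 / (4 * (n : ℝ)) := by
    rw [le_div_iff₀ (by positivity)] at h4 ⊢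
    nlinarith
  calc κ / 2 * Real.logb 2 (27 / 16) ≤ 1 / (4 * n) * Real.logb 2 (27 / 16) :=
        mul_le_mul_of_nonneg_right h6 hlog
    _ ≤ symRate (1 / (4 * n)) := le_symRate hn0
    _ ≤ symRate κ := symRate_mono h5

/-- The uniform finite bound. -/
theorem finite_bound (η : ℝ) (hη : 0 < η) : ∃ β : ℕ, ∀ d : ℕ,
    ∀ C : Finset (EuclideanSpace ℝ (Fin d)), IsKissing C →
      ∀ G : Subgroup (EuclideanSpace ℝ (Fin d) ≃ₗᵢ[ℝ] EuclideanSpace ℝ (Fin d)),
        Preserves G C → IsIrreducibleGroup G → ∀ g ∈ G, g ≠ 1 →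
          C.card ≤ d ^ β * tau ⌊(4 + η) * movedDim g⌋₊ := by
  set y0 : ℝ := 1 / (4 + η) with hy0def
  have hy0 : 0 < y0 := by positivity
  have hy01 : y0 ≤ 1 := by
    rw [hy0def, div_le_one (by positivity)]; linarith
  have hy04 : 0 < 1 - 4 * y0 := by
    rw [hy0def]
    have : 4 * (1 / (4 + η)) < 1 := by
      rw [mul_one_div, div_lt_one (by positivity)]; linarith
    linarith
  obtain ⟨β, hβ⟩ : ∃ β : ℕ, (1 - y0) ^ β < 1 - 4 * y0 :=
    exists_pow_lt_of_lt_one hy04 (by linarith)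
  refine ⟨β, ?_⟩
  intro d C hC G hG hirr g hg hg1
  have hMlt : (4 + η) * movedDim g < ⌊(4 + η) * movedDim g⌋₊ + 1 := Nat.lt_floor_add_one _
  have hcond : (movedDim g : ℝ) ≤ y0 * (⌊(4 + η) * movedDim g⌋₊ + 1) := by
    rw [hy0def, one_div, inv_mul_eq_div, le_div_iff₀ (by positivity)]
    linarith
  have hmain := card_le_general hC hG hirr hg hg1 hy0 hy01 hβ.le hcond
  rwa [finrank_euclideanSpace_fin] at hmain

end Pool.Agent.Helper91.Kissing
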