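import Pool.Agent.Helper91.Kissing.Asymp

set_option autoImplicit false

open Finset

namespace Pool.Agent.Helper91.Kissing.Signs

/-- The index set `F_2^N`. -/
abbrev J (N : ℕ) := Fin N → ZMod 2

/-- Sign vectors. -/
abbrev X (N : ℕ) := J N → ℤˣ

/-- integer inner product of sign vectors -/
def ip {ι : Type*} [Fintype ι] (x y : ι → ℤˣ) : ℤ := ∑ j, ((x j * y j : ℤˣ) : ℤ)

lemma ip_comm {ι : Type*} [Fintype ι] (x y : ι → ℤˣ) : ip x y = ip y x := by
  unfold ip
  exact Finset.sum_congr rfl fun j _ => by rw [mul_comm]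

variable {N : ℕ}

/-- translation of a sign vector -/
def tr (p : J N) (x : X N) : X N := fun j => x (j + p)

lemma two_eq (p : J N) : p + p = 0 := by
  funext i
  exact CharTwo.add_self_eq_zero (p i)

lemma tr_tr (p q : J N) (x : X N) : tr p (tr q x) = tr (p + q) x := by
  funext j
  simp [tr, add_assoc]

lemma tr_zero (x : X N) : tr 0 x = x := by
  funext j; simp [tr]

lemma tr_mul (p : J N) (x y : X N) : tr p (x * y) = tr p x * tr p y := rfl

/-- the moves -/
def mv (e : X N) (p : J N) (x : X N) : X N := e * tr p x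

lemma mv_mv (e e' : X N) (p p' : J N) (x : X N) :
    mv e p (mv e' p' x) = mv (e * tr p e') (p + p') x := by
  simp only [mv, tr_mul, tr_tr, mul_assoc]

lemma units_sq (u : ℤˣ) : u * u = 1 := Int.units_mul_self u

lemma mul_self_X (x : X N) : x * x = 1 := by
  funext j; exact units_sq _

lemma mv_inv (e : X N) (p : J N) (x : X N) : mv (tr p e) p (mv e p x) = x := by
  rw [mv_mv, mul_self_X, two_eq]
  simp [mv, tr_zero]

lemma mv_inv' (e : X N) (p : J N) (x : X N) : mv e p (mv (tr p e) p x) = x := by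
  have := mv_inv (tr p e) p x
  rwa [tr_tr, two_eq, tr_zero] at this

lemma ip_mv (e : X N) (p : J N) (x y : X N) : ip (mv e p x) (mv e p y) = ip x y := by
  unfold ip
  rw [← Equiv.sum_comp (Equiv.addRight p) (fun j => ((x j * y j : ℤˣ) : ℤ))]
  refine Finset.sum_congr rfl fun j _ => ?_
  have : (mv e p x j) * (mv e p y j) = (e j * e j) * (x (j + p) * y (j + p)) := by
    simp only [mv, tr, Pi.mul_apply]
    exact mul_mul_mul_comm _ _ _ _
  rw [this, units_sq, one_mul]
  rfl

/-- counting with exponential weights -/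
lemma count_le {ι : Type*} [Fintype ι] [DecidableEq ι] (c : ι → ℤ) (s : ℤ) (v B : ℝ) (hv : 1 ≤ v)
    (hB : ∀ i, v ^ (c i) + v ^ (-(c i)) ≤ B) :
    ((univ.filter (fun z : ι → ℤˣ => s < ∑ i, c i * (z i : ℤ))).card : ℝ) * v ^ s ≤
      B ^ (Fintype.card ι) := by
  have hv0 : 0 < v := by linarith
  have h1 : ∑ z : ι → ℤˣ, v ^ (∑ i, c i * (z i : ℤ)) = ∏ i, (v ^ (c i) + v ^ (-(c i))) := by
    have h2 : ∀ z : ι → ℤˣ, v ^ (∑ i, c i * (z i : ℤ)) = ∏ i, v ^ (c i * (z i : ℤ)) := by
      intro z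
      induction (univ : Finset ι) using Finset.induction_on with
      | empty => simp
      | insert a t ha ih =>
        rw [Finset.sum_insert ha, Finset.prod_insert ha, zpow_add₀ hv0.ne', ih]
    simp_rw [h2]
    have h3 := Finset.prod_univ_sum (κ := fun _ : ι => ℤˣ) (fun _ => univ)
      (fun i (u : ℤˣ) => v ^ (c i * (u : ℤ)))
    rw [Fintype.piFinset_univ] at h3
    rw [← h3]
    refine Finset.prod_congr rfl fun i _ => ?_
    have : (univ : Finset ℤˣ) = {1, -1} := by decide
    rw [this, Finset.sum_pair (by decide)]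
    simp
  calc ((univ.filter (fun z : ι → ℤˣ => s < ∑ i, c i * (z i : ℤ))).card : ℝ) * v ^ s
      = ∑ z ∈ univ.filter (fun z : ι → ℤˣ => s < ∑ i, c i * (z i : ℤ)), v ^ s := by
        rw [Finset.sum_const, nsmul_eq_mul]
    _ ≤ ∑ z ∈ univ.filter (fun z : ι → ℤˣ => s < ∑ i, c i * (z i : ℤ)),
          v ^ (∑ i, c i * (z i : ℤ)) := by
        refine Finset.sum_le_sum fun z hz => ?_
        exact zpow_le_zpow_right₀ hv (Finset.mem_filter.1 hz).2.le
    _ ≤ ∑ z : ι → ℤˣ, v ^ (∑ i, c i * (z i : ℤ)) := by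
        apply Finset.sum_le_sum_of_subset_of_nonneg (Finset.filter_subset _ _)
        intro z _ _
        positivity
    _ = ∏ i, (v ^ (c i) + v ^ (-(c i))) := h1
    _ ≤ ∏ _i : ι, B := by
        apply Finset.prod_le_prod
        · intro i _; positivity
        · intro i _; exact hB i
    _ = B ^ (Fintype.card ι) := by simp

/-- number of conflicts of a sign vector -/
lemma conflicts_le (x : X N) (s : ℤ) (v : ℝ) (hv : 1 ≤ v) :
    ((univ.filter (fun y : X N => s < ip x y)).card : ℝ) * v ^ s ≤ (v + v⁻¹) ^ (2 ^ N) := by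
  have h := count_le (ι := J N) (fun j => ((x j : ℤˣ) : ℤ)) s v (v + v⁻¹) hv (by
    intro j
    rcases Int.units_eq_one_or (x j) with h | h
    · simp [h]
    · simp [h, add_comm])
  have hc : Fintype.card (J N) = 2 ^ N := by simp [J, ZMod.card]
  rw [hc] at h
  have he : (univ.filter (fun y : X N => s < ip x y)) =
      univ.filter (fun z : J N → ℤˣ => s < ∑ i, ((x i : ℤˣ) : ℤ) * (z i : ℤ)) := by
    ext y
    simp [ip]
  rw [he]
  exact h

end Pool.Agent.Helper91.Kissing.Signs
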