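import Pool.Agent.Helper91.Kissing.Signs

set_option autoImplicit false

open Finset

namespace Pool.Agent.Helper91.Kissing.Signs

variable {N : ℕ}

lemma zmod2_cases (a : ZMod 2) : a = 0 ∨ a = 1 := by
  revert a; decide

/-- half of the coordinates -/
abbrev R (l : Fin N) := {j : J N // j l = 0}

lemma card_R (l : Fin N) {p : J N} (hp : p l = 1) : 2 * Fintype.card (R l) = 2 ^ N := by
  have hc : Fintype.card (J N) = 2 ^ N := by simp [J, ZMod.card]
  have h1 : Fintype.card {j : J N // ¬ (j l = 0)} = Fintype.card (R l) := by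
    apply Fintype.card_congr
    refine ⟨fun j => ⟨j.1 + p, ?_⟩, fun j => ⟨j.1 + p, ?_⟩, ?_, ?_⟩
    · have h := j.2
      rcases zmod2_cases (j.1 l) with h0 | h0
      · exact absurd h0 h
      · simp only [Pi.add_apply, h0, hp]; decide
    · have h := j.2
      simp only [Pi.add_apply, h, hp]; decide
    · intro j
      apply Subtype.ext
      simp [add_assoc, two_eq]
    · intro j
      apply Subtype.ext
      simp [add_assoc, two_eq]
  have h2 := Fintype.card_subtype_compl (fun j : J N => j l = 0)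
  have h3 : Fintype.card (R l) ≤ Fintype.card (J N) := Fintype.card_subtype_le _
  rw [h1, hc] at h2
  rw [hc] at h3
  change Fintype.card (R l) = 2 ^ N - Fintype.card (R l) at h2
  omega

lemma ip_mv_self (l : Fin N) {p : J N} (hp : p l = 1) (e x : X N) :
    ip x (mv e p x) = ∑ j : R l, (((e j.1 : ℤˣ) : ℤ) + ((e (j.1 + p) : ℤˣ) : ℤ)) *
      ((x j.1 * x (j.1 + p) : ℤˣ) : ℤ) := by
  unfold ip
  let f : J N → ℤ := fun j => ((x j * mv e p x j : ℤˣ) : ℤ)
  have hsplit : ∑ j, f j = ∑ j : R l, f j.1 + ∑ j : {j : J N // ¬ (j l = 0)}, f j.1 := by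
    rw [← Fintype.sum_subtype_add_sum_subtype (fun j : J N => j l = 0) f]
  have h2 : ∑ j : {j : J N // ¬ (j l = 0)}, f j.1 = ∑ j : R l, f (j.1 + p) := by
    let E : {j : J N // ¬ (j l = 0)} ≃ R l := by
      refine ⟨fun j => ⟨j.1 + p, ?_⟩, fun j => ⟨j.1 + p, ?_⟩, ?_, ?_⟩
      · have h := j.2
        rcases zmod2_cases (j.1 l) with h0 | h0
        · exact absurd h0 h
        · simp only [Pi.add_apply, h0, hp]; decide
      · have h := j.2
        simp only [Pi.add_apply, h, hp]; decide
      · intro j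
        apply Subtype.ext
        simp [add_assoc, two_eq]
      · intro j
        apply Subtype.ext
        simp [add_assoc, two_eq]
    rw [← Equiv.sum_comp E]
    refine Finset.sum_congr rfl fun j _ => ?_
    have : (E j).1 + p = j.1 := by
      show j.1 + p + p = j.1
      rw [add_assoc, two_eq, add_zero]
    rw [this]
  change ∑ j, f j = _
  rw [hsplit, h2, ← Finset.sum_add_distrib]
  refine Finset.sum_congr rfl fun j _ => ?_
  simp only [f, mv, tr, Pi.mul_apply]
  have h3 : j.1 + p + p = j.1 := by rw [add_assoc, two_eq, add_zero]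
  rw [h3]
  push_cast
  ring

/-- number of sign vectors in conflict with their image under a given move with `p ≠ 0` -/
lemma self_le (e : X N) {p : J N} (hp : p ≠ 0) (s : ℤ) (v : ℝ) (hv : 1 ≤ v) :
    ((univ.filter (fun x : X N => s < ip x (mv e p x))).card : ℝ) * v ^ s ≤
      (2 * (v ^ (2 : ℤ) + v ^ (-2 : ℤ))) ^ (2 ^ (N - 1)) := by
  obtain ⟨l, hl⟩ : ∃ l, p l ≠ 0 := Function.ne_iff.1 hp
  have hp1 : p l = 1 := by
    rcases zmod2_cases (p l) with h | h
    · exact absurd h hl
    · exact h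
  have hN : 0 < N := lt_of_le_of_lt (Nat.zero_le _) l.2
  have hcR := card_R l hp1
  have hcR' : Fintype.card (R l) = 2 ^ (N - 1) := by
    obtain ⟨M, rfl⟩ : ∃ M, N = M + 1 := ⟨N - 1, by omega⟩
    simp only [Nat.add_sub_cancel]
    rw [pow_succ] at hcR
    omega
  let c : R l → ℤ := fun j => ((e j.1 : ℤˣ) : ℤ) + ((e (j.1 + p) : ℤˣ) : ℤ)
  have hv0 : 0 < v := by linarith
  have hB2 : 2 ≤ v ^ (2 : ℤ) + v ^ (-2 : ℤ) := by
    have h1 : v ^ (-2 : ℤ) = (v ^ 2)⁻¹ := by
      rw [zpow_neg]; norm_cast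
    have h2 : v ^ (2 : ℤ) = v ^ 2 := by norm_cast
    rw [h1, h2]
    have h3 : 0 < v ^ 2 := by positivity
    have : (v ^ 2 + (v ^ 2)⁻¹ - 2) = (v ^ 2 - 1) ^ 2 / v ^ 2 := by field_simp; ring
    have h4 : 0 ≤ (v ^ 2 - 1) ^ 2 / v ^ 2 := by positivity
    linarith
  have h := count_le (ι := R l) c s v (v ^ (2 : ℤ) + v ^ (-2 : ℤ)) hv (by
    intro j
    rcases Int.units_eq_one_or (e j.1) with h1 | h1 <;>
      rcases Int.units_eq_one_or (e (j.1 + p)) with h2 | h2 <;> simp only [c, h1, h2]
    · norm_num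
    · norm_num
      norm_num at hB2
      linarith
    · norm_num
      norm_num at hB2
      linarith
    · norm_num
      rw [add_comm])
  rw [hcR'] at h
  -- injection
  let Φ : X N → (R l → ℤˣ) × (R l → ℤˣ) := fun x =>
    (fun j => x j.1, fun j => x j.1 * x (j.1 + p))
  have hΦ : Function.Injective Φ := by
    intro x y hxy
    have h1 : ∀ j : R l, x j.1 = y j.1 := fun j => congrFun (congrArg Prod.fst hxy) j
    have h2 : ∀ j : R l, x j.1 * x (j.1 + p) = y j.1 * y (j.1 + p) :=
      fun j => congrFun (congrArg Prod.snd hxy) j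
    funext j
    rcases zmod2_cases (j l) with h0 | h0
    · exact h1 ⟨j, h0⟩
    · have hj : (j + p) l = 0 := by
        simp only [Pi.add_apply, h0, hp1]; decide
      have h3 := h1 ⟨j + p, hj⟩
      have h4 := h2 ⟨j + p, hj⟩
      simp only at h3 h4
      rw [h3, add_assoc, two_eq, add_zero] at h4
      exact mul_left_cancel h4
  have hcard : (univ.filter (fun x : X N => s < ip x (mv e p x))).card ≤
      2 ^ (2 ^ (N - 1)) * (univ.filter (fun z : R l → ℤˣ => s < ∑ i, c i * (z i : ℤ))).card := by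
    have h1 : (univ.filter (fun x : X N => s < ip x (mv e p x))).card ≤
        ((univ : Finset (R l → ℤˣ)) ×ˢ
          (univ.filter (fun z : R l → ℤˣ => s < ∑ i, c i * (z i : ℤ)))).card := by
      apply Finset.card_le_card_of_injOn Φ
      · intro x hx
        have hx' : s < ip x (mv e p x) := by simpa using hx
        simp only [Finset.coe_product, Set.mem_prod, Finset.mem_coe, Finset.mem_univ, true_and,
          Finset.mem_filter]
        rw [ip_mv_self l hp1] at hx'
        exact hx'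
      · exact hΦ.injOn
    rw [Finset.card_product] at h1
    have h2 : (univ : Finset (R l → ℤˣ)).card = 2 ^ (2 ^ (N - 1)) := by
      rw [Finset.card_univ, Fintype.card_fun, hcR', Fintype.card_units_int]
    rw [h2] at h1
    exact h1
  have hcard' : ((univ.filter (fun x : X N => s < ip x (mv e p x))).card : ℝ) ≤
      2 ^ (2 ^ (N - 1)) *
        ((univ.filter (fun z : R l → ℤˣ => s < ∑ i, c i * (z i : ℤ))).card : ℝ) := by
    exact_mod_cast hcard
  calc ((univ.filter (fun x : X N => s < ip x (mv e p x))).card : ℝ) * v ^ s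
      ≤ (2 ^ (2 ^ (N - 1)) *
        ((univ.filter (fun z : R l → ℤˣ => s < ∑ i, c i * (z i : ℤ))).card : ℝ)) * v ^ s :=
        mul_le_mul_of_nonneg_right hcard' (by positivity)
    _ = 2 ^ (2 ^ (N - 1)) *
        (((univ.filter (fun z : R l → ℤˣ => s < ∑ i, c i * (z i : ℤ))).card : ℝ) * v ^ s) := by
        ring
    _ ≤ 2 ^ (2 ^ (N - 1)) * (v ^ (2 : ℤ) + v ^ (-2 : ℤ)) ^ (2 ^ (N - 1)) :=
        mul_le_mul_of_nonneg_left h (by positivity)
    _ = (2 * (v ^ (2 : ℤ) + v ^ (-2 : ℤ))) ^ (2 ^ (N - 1)) := by rw [mul_pow]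

end Pool.Agent.Helper91.Kissing.Signs
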